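import Mathlib
import Pool.Agent.W664.Fill.Cal

/-! # The loop integral of a function against its primitive -/

open Finset Real MeasureTheory Filter Topology Set

namespace Pool.Agent.TH172.FA

open Pool.Agent.H115R3.Filling Pool.Agent.W664.Fill

section loop

variable {m : ℕ} (brk : Fin (m + 1) → ℝ)

lemma sum_tele (γ : ℝ → ℝ) {n : ℕ} (hn : 0 < n) :
    ∑ k : Fin m, ∑ i ∈ range n, (γ (arc brk k (((i + 1 : ℕ) : ℝ) / n))
      - γ (arc brk k ((i : ℝ) / n))) = γ (brk (Fin.last m)) - γ (brk 0) := by
  have hnr : (n : ℝ) ≠ 0 := by exact_mod_cast hn.ne'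
  have h1 : ∀ k : Fin m, ∑ i ∈ range n, (γ (arc brk k (((i + 1 : ℕ) : ℝ) / n))
      - γ (arc brk k ((i : ℝ) / n))) = γ (brk k.succ) - γ (brk k.castSucc) := by
    intro k
    rw [Finset.sum_range_sub (fun i : ℕ => γ (arc brk k ((i : ℝ) / n)))]
    rw [div_self hnr, arc_one]
    simp [arc_zero]
  rw [Finset.sum_congr rfl (fun k _ => h1 k), fin_telescope (fun k => γ (brk k))]

lemma tendsto_loopSum (hmono : StrictMono brk) {α β : ℝ → ℝ} (hα : Continuous α)
    (hb : ∀ t, |α t| ≤ 1) (hαc : α (brk (Fin.last m)) = α (brk 0))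
    (hβc : β (brk (Fin.last m)) = β (brk 0)) (hβ : ∀ s t, β t - β s = ∫ x in s..t, α x) (c : ℝ) :
    Tendsto (fun n : ℕ => loopSum brk (fun t => c * α t) β n) atTop
      (𝓝 (2 * c * ∫ x in (brk 0)..(brk (Fin.last m)), α x ^ 2)) := by
  set T : ℝ := brk (Fin.last m) - brk 0 with hT
  have hT0 : 0 ≤ T := sub_nonneg.mpr (hmono.monotone (Fin.zero_le _))
  rw [Metric.tendsto_atTop]
  intro ε hε
  set η : ℝ := ε / (2 * (|c| + 1) * (T + 1)) with hη
  have hη0 : 0 < η := by positivity
  have huc := (isCompact_Icc (a := brk 0) (b := brk (Fin.last m))).uniformContinuousOn_of_continuous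
    hα.continuousOn
  rw [Metric.uniformContinuousOn_iff] at huc
  obtain ⟨δ, hδ, hδ'⟩ := huc η hη0
  obtain ⟨N, hN⟩ := exists_nat_gt (T / δ)
  refine ⟨N + 1, fun n hn => ?_⟩
  have hn0 : 0 < n := by omega
  have hnr : (0 : ℝ) < n := by exact_mod_cast hn0
  have hTn : T / n < δ := by
    rw [div_lt_iff₀ hnr, mul_comm, ← div_lt_iff₀ hδ]
    refine hN.trans ?_
    exact_mod_cast (by omega : N < n)
  have hcont2 : Continuous (fun x => α x ^ 2) := hα.pow 2
  rw [loopSum_eq brk (fun t => c * α t) β (by simp only [hαc]) hβc hn0]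
  have e1 : ∫ x in (brk 0)..(brk (Fin.last m)), α x ^ 2
      = ∑ k : Fin m, ∑ i ∈ range n,
        ∫ x in (arc brk k ((i : ℝ) / n))..(arc brk k (((i + 1 : ℕ) : ℝ) / n)), α x ^ 2 := by
    have h := sum_tele brk (fun t => ∫ x in (0 : ℝ)..t, α x ^ 2) hn0
    have h2 : ∀ a b : ℝ, (∫ x in (0 : ℝ)..b, α x ^ 2) - (∫ x in (0 : ℝ)..a, α x ^ 2)
        = ∫ x in a..b, α x ^ 2 := by
      intro a b
      rw [intervalIntegral.integral_interval_sub_left (hcont2.intervalIntegrable _ _)
        (hcont2.intervalIntegrable _ _)]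
    simp_rw [h2] at h
    exact h.symm
  rw [e1, Real.dist_eq, Finset.mul_sum, ← Finset.sum_sub_distrib]
  have hterm : ∀ k : Fin m, |∑ i ∈ range n,
      (c * α (arc brk k ((i : ℝ) / n)) + c * α (arc brk k (((i + 1 : ℕ) : ℝ) / n)))
        * (β (arc brk k (((i + 1 : ℕ) : ℝ) / n)) - β (arc brk k ((i : ℝ) / n)))
      - 2 * c * ∑ i ∈ range n,
        ∫ x in (arc brk k ((i : ℝ) / n))..(arc brk k (((i + 1 : ℕ) : ℝ) / n)), α x ^ 2|
      ≤ 2 * |c| * η * (brk k.succ - brk k.castSucc) := by
    intro k
    have hk : 0 < brk k.succ - brk k.castSucc := sub_pos.mpr (hmono (Fin.castSucc_lt_succ))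
    have hkT : brk k.succ - brk k.castSucc ≤ T := by
      have h1 := hmono.monotone (Fin.zero_le k.castSucc)
      have h2 := hmono.monotone (Fin.le_last k.succ)
      rw [hT]; linarith
    rw [Finset.mul_sum, ← Finset.sum_sub_distrib]
    refine (Finset.abs_sum_le_sum_abs _ _).trans ?_
    have h2 : ∀ i ∈ range n, |(c * α (arc brk k ((i : ℝ) / n))
          + c * α (arc brk k (((i + 1 : ℕ) : ℝ) / n)))
        * (β (arc brk k (((i + 1 : ℕ) : ℝ) / n)) - β (arc brk k ((i : ℝ) / n)))
        - 2 * c * ∫ x in (arc brk k ((i : ℝ) / n))..(arc brk k (((i + 1 : ℕ) : ℝ) / n)), α x ^ 2|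
        ≤ 2 * |c| * η * (brk k.succ - brk k.castSucc) / n := by
      intro i hi
      have hi' := Finset.mem_range.mp hi
      set a := arc brk k ((i : ℝ) / n) with ha
      set b := arc brk k (((i + 1 : ℕ) : ℝ) / n) with hbd
      have hab : b - a = (brk k.succ - brk k.castSucc) / n := by
        rw [ha, hbd]; unfold arc; push_cast; field_simp; ring
      have hab0 : a ≤ b := by
        have : 0 < b - a := by rw [hab]; positivity
        linarith
      have hain : brk 0 ≤ a := by
        have h1 := hmono.monotone (Fin.zero_le k.castSucc)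
        rw [ha]; unfold arc
        have : 0 ≤ (i : ℝ) / n * (brk k.succ - brk k.castSucc) := by positivity
        linarith
      have hbin : b ≤ brk (Fin.last m) := by
        have h2 := hmono.monotone (Fin.le_last k.succ)
        rw [hbd]; unfold arc
        have h3 : ((i + 1 : ℕ) : ℝ) / n ≤ 1 := (div_le_one hnr).mpr (by exact_mod_cast hi')
        nlinarith
      have e2 : (c * α a + c * α b) * (β b - β a) - 2 * c * ∫ x in a..b, α x ^ 2
          = ∫ x in a..b, c * (α a + α b - 2 * α x) * α x := by
        rw [hβ a b, ← intervalIntegral.integral_const_mul, ← intervalIntegral.integral_const_mul,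
          ← intervalIntegral.integral_sub]
        · apply intervalIntegral.integral_congr
          intro x _
          simp only
          ring
        · exact (continuous_const.mul hα).intervalIntegrable _ _
        · exact (continuous_const.mul hcont2).intervalIntegrable _ _
      rw [e2]
      have e3 := intervalIntegral.norm_integral_le_of_norm_le_const (a := a) (b := b)
        (C := |c| * (2 * η)) (f := fun x => c * (α a + α b - 2 * α x) * α x) (fun x hx => by
          rw [Set.uIoc_of_le hab0] at hx
          have hxin : x ∈ Set.Icc (brk 0) (brk (Fin.last m)) :=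
            ⟨hain.trans hx.1.le, hx.2.trans hbin⟩
          have hain' : a ∈ Set.Icc (brk 0) (brk (Fin.last m)) := ⟨hain, hab0.trans hbin⟩
          have hbin' : b ∈ Set.Icc (brk 0) (brk (Fin.last m)) := ⟨hain.trans hab0, hbin⟩
          have hlen : b - a < δ := by
            rw [hab]
            refine lt_of_le_of_lt ?_ hTn
            exact div_le_div_of_nonneg_right hkT hnr.le
          have f1 := hδ' a hain' x hxin (by
            rw [Real.dist_eq, abs_lt]
            constructor <;> linarith [hx.1, hx.2])
          have f2 := hδ' b hbin' x hxin (by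
            rw [Real.dist_eq, abs_lt]
            constructor <;> linarith [hx.1, hx.2])
          rw [Real.dist_eq] at f1 f2
          rw [Real.norm_eq_abs, abs_mul, abs_mul]
          have f3 : |α a + α b - 2 * α x| ≤ 2 * η := by
            have : α a + α b - 2 * α x = (α a - α x) + (α b - α x) := by ring
            rw [this]
            refine (abs_add_le _ _).trans ?_
            linarith
          calc |c| * |α a + α b - 2 * α x| * |α x| ≤ |c| * (2 * η) * 1 :=
                mul_le_mul (mul_le_mul_of_nonneg_left f3 (abs_nonneg _)) (hb x)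
                  (abs_nonneg _) (by positivity)
            _ = |c| * (2 * η) := mul_one _)
      rw [Real.norm_eq_abs, abs_of_nonneg (by linarith : 0 ≤ b - a), hab] at e3
      refine e3.trans (le_of_eq ?_)
      ring
    refine (Finset.sum_le_sum h2).trans (le_of_eq ?_)
    rw [Finset.sum_const, card_range, nsmul_eq_mul]
    field_simp
  refine lt_of_le_of_lt (Finset.abs_sum_le_sum_abs _ _) ?_
  refine lt_of_le_of_lt (Finset.sum_le_sum (fun k _ => hterm k)) ?_
  rw [← Finset.mul_sum, fin_telescope brk, ← hT]
  have h5 : 2 * |c| * η * T < ε := by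
    have h6 : 2 * (|c| + 1) * (T + 1) * η = ε := by
      rw [hη]; field_simp
    have h7 : 0 ≤ |c| := abs_nonneg c
    rw [← h6]
    nlinarith [mul_nonneg h7 hT0, mul_pos hη0 hη0, mul_nonneg h7 hη0.le, mul_nonneg hT0 hη0.le,
      mul_nonneg (mul_nonneg h7 hT0) hη0.le]
  exact h5

end loop

/-! ### McShane extension of a Lipschitz function on the circle -/

section mcshane

variable {M : Type} [MetricSpace M]

/-- McShane type extension to `M` of a function on the circle. -/
noncomputable def mext (β : AddCircle (2 * π) → M) (f : AddCircle (2 * π) → ℝ) (x : M) : ℝ :=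
  ⨅ t : AddCircle (2 * π), (f t + dist (β t) x)

variable {β : AddCircle (2 * π) → M} {f : AddCircle (2 * π) → ℝ}

lemma mext_bdd (hβ : ∀ x y, dist x y ≤ dist (β x) (β y)) (hf : ∀ x y, |f x - f y| ≤ dist x y)
    (x : M) : BddBelow (Set.range fun t : AddCircle (2 * π) => (f t + dist (β t) x)) := by
  refine ⟨f 0 - dist (β 0) x, ?_⟩
  rintro _ ⟨t, rfl⟩
  have h1 := hf 0 t
  have h2 := hβ 0 t
  have h3 := dist_triangle_right (β 0) (β t) x
  have h4 := (abs_le.mp h1).2
  simp only
  linarith

lemma mext_boundary (hβ : ∀ x y, dist x y ≤ dist (β x) (β y))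
    (hf : ∀ x y, |f x - f y| ≤ dist x y) (s : AddCircle (2 * π)) : mext β f (β s) = f s := by
  unfold mext
  apply le_antisymm
  · refine (ciInf_le (mext_bdd hβ hf (β s)) s).trans ?_
    simp
  · apply le_ciInf
    intro t
    have h1 := hβ t s
    have h2 := (abs_le.mp (hf s t)).2
    rw [dist_comm] at h2
    linarith

lemma mext_lip (hβ : ∀ x y, dist x y ≤ dist (β x) (β y))
    (hf : ∀ x y, |f x - f y| ≤ dist x y) (x y : M) :
    |mext β f x - mext β f y| ≤ dist x y := by
  have key : ∀ x y : M, mext β f x ≤ mext β f y + dist x y := by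
    intro x y
    unfold mext
    rw [← sub_le_iff_le_add]
    apply le_ciInf
    intro t
    have h1 := ciInf_le (mext_bdd hβ hf x) t
    have h2 := dist_triangle (β t) y x
    rw [dist_comm y x] at h2
    linarith
  rw [abs_le]
  constructor
  · have := key y x
    rw [dist_comm] at this
    linarith
  · have := key x y
    linarith

end mcshane

/-! ### Periodic Lipschitz functions on the circle -/

lemma exists_rep (x y : AddCircle (2 * π)) :
    ∃ s t : ℝ, (s : AddCircle (2 * π)) = x ∧ (t : AddCircle (2 * π)) = y ∧ dist x y = |s - t| := by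
  induction x using QuotientAddGroup.induction_on with
  | H s =>
    induction y using QuotientAddGroup.induction_on with
    | H t =>
      refine ⟨s - round ((2 * π)⁻¹ * (s - t)) * (2 * π), t, ?_, rfl, ?_⟩
      · have : ((s - round ((2 * π)⁻¹ * (s - t)) * (2 * π) : ℝ) : AddCircle (2 * π))
            = (s : AddCircle (2 * π)) := by
          rw [AddCircle.coe_sub]
          have h0 : ((round ((2 * π)⁻¹ * (s - t)) * (2 * π) : ℝ) : AddCircle (2 * π)) = 0 := by
            rw [AddCircle.coe_eq_zero_iff]
            exact ⟨round ((2 * π)⁻¹ * (s - t)), by simp⟩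
          rw [h0, sub_zero]
        exact this
      · have h := AddCircle.norm_eq (2 * π) (x := s - t)
        have h2 : dist (s : AddCircle (2 * π)) (t : AddCircle (2 * π))
            = ‖((s - t : ℝ) : AddCircle (2 * π))‖ := by
          rw [dist_eq_norm, ← AddCircle.coe_sub]
        refine (h2.trans h).trans ?_
        congr 1
        ring

lemma lift_lip {b : ℝ → ℝ} (hp : Function.Periodic b (2 * π)) (hb : ∀ s t, |b s - b t| ≤ |s - t|)
    (x y : AddCircle (2 * π)) : |hp.lift x - hp.lift y| ≤ dist x y := by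
  obtain ⟨s, t, rfl, rfl, h⟩ := exists_rep x y
  rw [h, Function.Periodic.lift_coe, Function.Periodic.lift_coe]
  exact hb s t

end Pool.Agent.TH172.FA
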