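import Mathlib

/-! # A Gaussian average of the gradients of steep odd functions on a sphere -/

open MeasureTheory ProbabilityTheory Real
open scoped ENNReal

namespace Pool.Agent.TH172.FA

/-- A steep odd function with values in `(-1, 1)`. -/
noncomputable def psi (n : ℕ) (s : ℝ) : ℝ := 2 / π * arctan (n * s)

/-- The derivative of `psi`. -/
noncomputable def psi' (n : ℕ) (s : ℝ) : ℝ := 2 / π * (n / (1 + (n * s) ^ 2))

lemma hasDerivAt_psi (n : ℕ) (s : ℝ) : HasDerivAt (psi n) (psi' n s) s := by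
  have h1 : HasDerivAt (fun s : ℝ => (n : ℝ) * s) n s := by
    simpa using (hasDerivAt_id s).const_mul (n : ℝ)
  have h2 := (h1.arctan).const_mul (2 / π)
  refine h2.congr_deriv ?_
  unfold psi'
  ring

lemma psi_neg (n : ℕ) (s : ℝ) : psi n (-s) = -psi n s := by
  unfold psi
  rw [mul_neg, arctan_neg]
  ring

lemma abs_psi_le (n : ℕ) (s : ℝ) : |psi n s| ≤ 1 := by
  unfold psi
  have h1 := arctan_lt_pi_div_two (n * s)
  have h2 := neg_pi_div_two_lt_arctan (n * s)
  rw [abs_mul, abs_of_pos (by positivity : 0 < 2 / π)]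
  have h3 : |arctan (n * s)| ≤ π / 2 := abs_le.mpr ⟨h2.le, h1.le⟩
  calc 2 / π * |arctan (n * s)| ≤ 2 / π * (π / 2) :=
        mul_le_mul_of_nonneg_left h3 (by positivity)
    _ = 1 := by field_simp

lemma psi'_nonneg (n : ℕ) (s : ℝ) : 0 ≤ psi' n s := by
  unfold psi'
  positivity

lemma psi'_le (n : ℕ) (s : ℝ) : psi' n s ≤ 2 / π * n := by
  unfold psi'
  apply mul_le_mul_of_nonneg_left _ (by positivity)
  apply div_le_self (by positivity)
  nlinarith [sq_nonneg ((n : ℝ) * s)]

lemma continuous_psi (n : ℕ) : Continuous (psi n) := by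
  unfold psi
  fun_prop

lemma continuous_psi' (n : ℕ) : Continuous (psi' n) := by
  unfold psi'
  apply Continuous.mul continuous_const
  apply Continuous.div continuous_const (by fun_prop)
  intro x
  positivity

lemma integral_psi' {n : ℕ} (hn : 0 < n) : ∫ s, psi' n s = 2 := by
  have h1 : ∀ s, psi' n s = 2 / π * n * (fun x : ℝ => (1 + x ^ 2)⁻¹) (n * s) := by
    intro s
    unfold psi'
    simp only
    ring
  have hn' : (0 : ℝ) < n := by exact_mod_cast hn
  simp_rw [h1]
  rw [integral_const_mul, Measure.integral_comp_mul_left (fun x : ℝ => (1 + x ^ 2)⁻¹) (n : ℝ),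
    integral_univ_inv_one_add_sq, abs_of_pos (by positivity), smul_eq_mul]
  field_simp

lemma integrable_psi' {n : ℕ} (hn : 0 < n) : Integrable (psi' n) := by
  by_contra h
  have h1 := integral_psi' hn
  rw [integral_undef h] at h1
  norm_num at h1

/-- The standard Gaussian law on the line. -/
noncomputable abbrev gam : Measure ℝ := gaussianReal 0 1

lemma lintegral_psi' {n : ℕ} (hn : 0 < n) :
    ∫⁻ z, ENNReal.ofReal (psi' n z) ∂gam ≤ ENNReal.ofReal (2 / √(2 * π)) := by
  have h0 : gam = volume.withDensity (gaussianPDF 0 1) :=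
    gaussianReal_of_var_ne_zero 0 one_ne_zero
  rw [h0, lintegral_withDensity_eq_lintegral_mul _ (measurable_gaussianPDF 0 1)
    ((continuous_psi' n).measurable.ennreal_ofReal)]
  have h1 : ∀ z, (gaussianPDF 0 1 * fun z => ENNReal.ofReal (psi' n z)) z
      ≤ ENNReal.ofReal ((√(2 * π))⁻¹ * psi' n z) := by
    intro z
    simp only [Pi.mul_apply, gaussianPDF]
    rw [← ENNReal.ofReal_mul (gaussianPDFReal_nonneg 0 1 z)]
    apply ENNReal.ofReal_le_ofReal
    apply mul_le_mul_of_nonneg_right _ (psi'_nonneg n z)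
    rw [gaussianPDFReal]
    simp only [NNReal.coe_one, mul_one, sub_zero]
    apply mul_le_of_le_one_right (by positivity)
    rw [Real.exp_le_one_iff]
    have := sq_nonneg z
    linarith
  refine (lintegral_mono h1).trans ?_
  rw [← ofReal_integral_eq_lintegral_ofReal ((integrable_psi' hn).const_mul _)
    (Filter.Eventually.of_forall fun z => mul_nonneg (by positivity) (psi'_nonneg n z)),
    integral_const_mul, integral_psi' hn]
  apply ENNReal.ofReal_le_ofReal
  apply le_of_eq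
  ring

/-- The expectation of the norm of a planar standard Gaussian vector. -/
lemma lintegral_norm_two :
    ∫⁻ u, ENNReal.ofReal (√(u.1 ^ 2 + u.2 ^ 2)) ∂(gam.prod gam) = ENNReal.ofReal (√(2 * π) / 2) := by
  have h0 : gam = volume.withDensity (gaussianPDF 0 1) :=
    gaussianReal_of_var_ne_zero 0 one_ne_zero
  have hm := measurable_gaussianPDF 0 1
  have hsig : SFinite (volume.withDensity (gaussianPDF 0 1)) := by
    rw [← h0]; infer_instance
  rw [h0, prod_withDensity hm hm]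
  rw [lintegral_withDensity_eq_lintegral_mul _ (by fun_prop) (by fun_prop)]
  have h1 : ∀ u : ℝ × ℝ, ((fun z : ℝ × ℝ => gaussianPDF 0 1 z.1 * gaussianPDF 0 1 z.2)
      * fun u : ℝ × ℝ => ENNReal.ofReal (√(u.1 ^ 2 + u.2 ^ 2))) u
      = (fun z : ℂ => ENNReal.ofReal ((2 * π)⁻¹ * (‖z‖ ^ (1 : ℝ) * rexp (-(1 / 2) * ‖z‖ ^ (2 : ℝ)))))
        (Complex.measurableEquivRealProd.symm u) := by
    intro u
    have hz : ‖Complex.measurableEquivRealProd.symm u‖ = √(u.1 ^ 2 + u.2 ^ 2) := by
      rw [Complex.measurableEquivRealProd_symm_apply, Complex.norm_def, Complex.normSq_mk]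
      congr 1
      ring
    simp only [Pi.mul_apply, gaussianPDF]
    rw [hz, ← ENNReal.ofReal_mul (gaussianPDFReal_nonneg 0 1 _), ← ENNReal.ofReal_mul
      (mul_nonneg (gaussianPDFReal_nonneg 0 1 _) (gaussianPDFReal_nonneg 0 1 _))]
    congr 1
    rw [gaussianPDFReal, gaussianPDFReal]
    simp only [NNReal.coe_one, mul_one, sub_zero]
    have e1 : √(u.1 ^ 2 + u.2 ^ 2) ^ (2 : ℝ) = u.1 ^ 2 + u.2 ^ 2 := by
      rw [Real.rpow_two, Real.sq_sqrt (by positivity)]
    rw [e1, Real.rpow_one]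
    have e2 : rexp (-(1 / 2) * (u.1 ^ 2 + u.2 ^ 2)) = rexp (-u.1 ^ 2 / 2) * rexp (-u.2 ^ 2 / 2) := by
      rw [← Real.exp_add]
      congr 1
      ring
    have e3 : (√(2 * π))⁻¹ * (√(2 * π))⁻¹ = (2 * π)⁻¹ := by
      rw [← mul_inv, Real.mul_self_sqrt (by positivity)]
    rw [e2, ← e3]
    ring
  rw [lintegral_congr h1, ← Measure.volume_eq_prod]
  rw [Complex.volume_preserving_equiv_real_prod.symm.lintegral_comp_emb
    (MeasurableEquiv.measurableEmbedding _)
    (fun z : ℂ => ENNReal.ofReal ((2 * π)⁻¹ * (‖z‖ ^ (1 : ℝ) * rexp (-(1 / 2) * ‖z‖ ^ (2 : ℝ)))))]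
  have h2 := Complex.integral_rpow_mul_exp_neg_mul_rpow (p := 2) (q := 1) (b := 1 / 2)
    (by norm_num) (by norm_num) (by norm_num)
  have h3 : (2 * π / 2) * (1 / 2 : ℝ) ^ (-((1 : ℝ) + 2) / 2) * Real.Gamma ((1 + 2) / 2)
      = 2 * π * (√(2 * π) / 2) := by
    have g1 : Real.Gamma ((1 + 2) / 2) = √π / 2 := by
      rw [show ((1 : ℝ) + 2) / 2 = 1 / 2 + 1 by norm_num, Real.Gamma_add_one (by norm_num),
        Real.Gamma_one_half_eq]
      ring
    have g2 : (1 / 2 : ℝ) ^ (-((1 : ℝ) + 2) / 2) = 2 * √2 := by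
      rw [show -((1 : ℝ) + 2) / 2 = -(3 / 2) by norm_num, Real.rpow_neg (by norm_num),
        one_div, Real.inv_rpow (by norm_num), inv_inv,
        show (3 / 2 : ℝ) = 1 + 1 / 2 by norm_num, Real.rpow_add (by norm_num), Real.rpow_one,
        Real.sqrt_eq_rpow]
    rw [g1, g2, Real.sqrt_mul (by norm_num)]
    ring
  rw [h3] at h2
  rw [← ofReal_integral_eq_lintegral_ofReal]
  · rw [integral_const_mul, h2]
    congr 1
    field_simp
  · apply Integrable.const_mul
    by_contra h
    rw [integral_undef h] at h2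
    have : 0 < 2 * π * (√(2 * π) / 2) := by positivity
    linarith
  · exact Filter.Eventually.of_forall fun z => by positivity

/-- The quarter turn preserves the planar standard Gaussian law. -/
lemma measurePreserving_turn :
    MeasurePreserving (fun u : ℝ × ℝ => (u.2, -u.1)) (gam.prod gam) (gam.prod gam) := by
  have h1 : MeasurePreserving (fun x : ℝ => -x) gam gam := by
    refine ⟨measurable_neg, ?_⟩
    rw [gaussianReal_map_neg, neg_zero]
  have h2 : MeasurePreserving (Prod.map (id : ℝ → ℝ) (fun x : ℝ => -x)) (gam.prod gam)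
      (gam.prod gam) := (MeasurePreserving.id gam).prod h1
  exact h2.comp Measure.measurePreserving_swap

/-- The average of the square root of a quadratic form is at most that of the round form of the
same trace. -/
lemma lintegral_sqrt_le (R : ℝ × ℝ → ℝ) (hR : Continuous R) (q : ℝ) (hq : 0 ≤ q)
    (hR0 : ∀ u, 0 ≤ R u) (hRq : ∀ u : ℝ × ℝ, R u + R (u.2, -u.1) = q * (u.1 ^ 2 + u.2 ^ 2)) :
    ∫⁻ u, ENNReal.ofReal (√(R u)) ∂(gam.prod gam)
      ≤ ENNReal.ofReal (√(q / 2) * (√(2 * π) / 2)) := by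
  have h1 : ∫⁻ u, ENNReal.ofReal (√(R u)) ∂(gam.prod gam)
      = ∫⁻ u : ℝ × ℝ, ENNReal.ofReal (√(R (u.2, -u.1))) ∂(gam.prod gam) := by
    have := measurePreserving_turn.lintegral_comp (f := fun u => ENNReal.ofReal (√(R u)))
      (by fun_prop)
    exact this.symm
  have h2 : ∀ u : ℝ × ℝ, ENNReal.ofReal (√(R u)) + ENNReal.ofReal (√(R (u.2, -u.1)))
      ≤ ENNReal.ofReal (2 * √(q / 2)) * ENNReal.ofReal (√(u.1 ^ 2 + u.2 ^ 2)) := by
    intro u
    rw [← ENNReal.ofReal_add (Real.sqrt_nonneg _) (Real.sqrt_nonneg _),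
      ← ENNReal.ofReal_mul (by positivity)]
    apply ENNReal.ofReal_le_ofReal
    have e1 : 2 * √(q / 2) * √(u.1 ^ 2 + u.2 ^ 2) = √(2 * (R u + R (u.2, -u.1))) := by
      rw [hRq, mul_assoc, ← Real.sqrt_mul (by positivity),
        show (2 : ℝ) = √(2 ^ 2) by rw [Real.sqrt_sq (by norm_num)], ← Real.sqrt_mul (by positivity),
        Real.sqrt_sq (by norm_num)]
      congr 1
      ring
    rw [e1]
    apply Real.le_sqrt_of_sq_le
    have f1 := Real.sq_sqrt (hR0 u)
    have f2 := Real.sq_sqrt (hR0 (u.2, -u.1))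
    nlinarith [sq_nonneg (√(R u) - √(R (u.2, -u.1)))]
  have h3 : 2 * ∫⁻ u, ENNReal.ofReal (√(R u)) ∂(gam.prod gam)
      ≤ ENNReal.ofReal (2 * √(q / 2)) * ENNReal.ofReal (√(2 * π) / 2) := by
    calc 2 * ∫⁻ u, ENNReal.ofReal (√(R u)) ∂(gam.prod gam)
        = ∫⁻ u : ℝ × ℝ, (ENNReal.ofReal (√(R u)) + ENNReal.ofReal (√(R (u.2, -u.1))))
          ∂(gam.prod gam) := by
          rw [lintegral_add_left (by fun_prop), ← h1, two_mul]
      _ ≤ ∫⁻ u : ℝ × ℝ, ENNReal.ofReal (2 * √(q / 2)) * ENNReal.ofReal (√(u.1 ^ 2 + u.2 ^ 2))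
          ∂(gam.prod gam) := lintegral_mono h2
      _ = _ := by
          rw [lintegral_const_mul _ (by fun_prop), lintegral_norm_two]
  rw [← ENNReal.ofReal_mul (by positivity)] at h3
  have h4 : ENNReal.ofReal (2 * √(q / 2) * (√(2 * π) / 2))
      = 2 * ENNReal.ofReal (√(q / 2) * (√(2 * π) / 2)) := by
    rw [mul_assoc, ENNReal.ofReal_mul (by norm_num)]
    norm_num
  rw [h4] at h3
  exact (ENNReal.mul_le_mul_iff_right (by norm_num) (by norm_num)).mp h3

section law

set_option linter.unusedSectionVars false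

variable {V : Type*} [NormedAddCommGroup V] [InnerProductSpace ℝ V] [FiniteDimensional ℝ V]
  [MeasurableSpace V] [BorelSpace V]

lemma charFunDual_gam (L : StrongDual ℝ ℝ) :
    charFunDual gam L = Complex.exp (-((L 1) ^ 2 : ℝ) / 2) := by
  have h1 : charFunDual gam L = charFun gam (L 1) := by
    rw [charFunDual_apply, charFun_apply_real]
    congr 1
    funext x
    have : L x = L 1 * x := by
      have := L.map_smul x 1
      simp only [smul_eq_mul, mul_one] at this
      rw [this]; ring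
    rw [this]
    push_cast
    ring_nf
  rw [h1, charFun_gaussianReal]
  congr 1
  push_cast
  simp
  ring

/-- The joint law of three linear functionals of a standard Gaussian vector. -/
lemma law {w A B : V} (hw : ‖w‖ = 1) (hA : inner ℝ w A = 0) (hB : inner ℝ w B = 0)
    {l m r : ℝ} (h1 : l ^ 2 = ‖A‖ ^ 2) (h2 : l * m = inner ℝ A B)
    (h3 : m ^ 2 + r ^ 2 = ‖B‖ ^ 2) :
    (stdGaussian V).map (fun v => (inner ℝ w v, (inner ℝ A v, inner ℝ B v)))
      = (gam.prod (gam.prod gam)).map (fun z => (z.1, (l * z.2.1, m * z.2.1 + r * z.2.2))) := by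
  set T : V →L[ℝ] ℝ × (ℝ × ℝ) := (innerSL ℝ w).prod ((innerSL ℝ A).prod (innerSL ℝ B)) with hT
  set T2 : (ℝ × (ℝ × ℝ)) →L[ℝ] ℝ × (ℝ × ℝ) :=
    (ContinuousLinearMap.fst ℝ ℝ (ℝ × ℝ)).prod
      ((l • (ContinuousLinearMap.fst ℝ ℝ ℝ).comp (ContinuousLinearMap.snd ℝ ℝ (ℝ × ℝ))).prod
        (m • (ContinuousLinearMap.fst ℝ ℝ ℝ).comp (ContinuousLinearMap.snd ℝ ℝ (ℝ × ℝ))
          + r • (ContinuousLinearMap.snd ℝ ℝ ℝ).comp (ContinuousLinearMap.snd ℝ ℝ (ℝ × ℝ))))
    with hT2
  have e1 : (fun v => (inner ℝ w v, (inner ℝ A v, inner ℝ B v))) = T := by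
    funext v
    simp [hT]
  have e2 : (fun z : ℝ × (ℝ × ℝ) => (z.1, (l * z.2.1, m * z.2.1 + r * z.2.2))) = T2 := by
    funext z
    simp [hT2]
  rw [e1, e2]
  have i1 : IsFiniteMeasure ((stdGaussian V).map T) := Measure.isFiniteMeasure_map _ _
  have i2 : IsFiniteMeasure ((gam.prod (gam.prod gam)).map T2) := Measure.isFiniteMeasure_map _ _
  apply Measure.ext_of_charFunDual
  funext L
  rw [charFunDual_map, charFunDual_map, charFunDual_stdGaussian, charFunDual_prod,
    charFunDual_prod, charFunDual_gam, charFunDual_gam, charFunDual_gam, ← Complex.exp_add,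
    ← Complex.exp_add]
  congr 1
  set a : ℝ := L (1, (0, 0)) with ha
  set b : ℝ := L (0, (1, 0)) with hb
  set c : ℝ := L (0, (0, 1)) with hc
  have hL : ∀ x y z : ℝ, L (x, (y, z)) = a * x + b * y + c * z := by
    intro x y z
    have : ((x, (y, z)) : ℝ × (ℝ × ℝ)) = x • (1, (0, 0)) + y • (0, (1, 0)) + z • (0, (0, 1)) := by
      simp
    rw [this, map_add, map_add, map_smul, map_smul, map_smul]
    simp only [smul_eq_mul, ← ha, ← hb, ← hc]
    ring
  have hLT : L.comp T = innerSL ℝ (a • w + b • A + c • B) := by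
    ext v
    simp only [ContinuousLinearMap.comp_apply, hT, ContinuousLinearMap.prod_apply,
      innerSL_apply_apply, hL, inner_add_left, real_inner_smul_left]
  rw [hLT, innerSL_apply_norm]
  have hn : ‖a • w + b • A + c • B‖ ^ 2 = a ^ 2 + (b * l + c * m) ^ 2 + (c * r) ^ 2 := by
    rw [← real_inner_self_eq_norm_sq]
    simp only [inner_add_left, inner_add_right, real_inner_smul_left, real_inner_smul_right]
    rw [real_inner_self_eq_norm_sq, real_inner_self_eq_norm_sq, real_inner_self_eq_norm_sq,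
      real_inner_comm w A, real_inner_comm w B, real_inner_comm A B, hA, hB, hw, ← h1, ← h3, ← h2]
    ring
  have k1 : ((L.comp T2).comp (ContinuousLinearMap.inl ℝ ℝ (ℝ × ℝ))) 1 = a := by
    simp only [ContinuousLinearMap.comp_apply, hT2]
    simp [hL]
  have k2 : (((L.comp T2).comp (ContinuousLinearMap.inr ℝ ℝ (ℝ × ℝ))).comp
      (ContinuousLinearMap.inl ℝ ℝ ℝ)) 1 = b * l + c * m := by
    simp only [ContinuousLinearMap.comp_apply, hT2]
    simp [hL]
  have k3 : (((L.comp T2).comp (ContinuousLinearMap.inr ℝ ℝ (ℝ × ℝ))).comp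
      (ContinuousLinearMap.inr ℝ ℝ ℝ)) 1 = c * r := by
    simp only [ContinuousLinearMap.comp_apply, hT2]
    simp [hL]
  rw [k1, k2, k3]
  have hn' : ((‖a • w + b • A + c • B‖ : ℝ) : ℂ) ^ 2
      = ((a ^ 2 + (b * l + c * m) ^ 2 + (c * r) ^ 2 : ℝ) : ℂ) := by
    rw [← hn]; push_cast; rfl
  rw [hn']
  push_cast
  ring

lemma exists_chol (A B : V) : ∃ l m r : ℝ, l ^ 2 = ‖A‖ ^ 2 ∧ l * m = inner ℝ A B
    ∧ m ^ 2 + r ^ 2 = ‖B‖ ^ 2 := by
  by_cases hA : A = 0
  · refine ⟨0, 0, ‖B‖, ?_, ?_, ?_⟩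
    · simp [hA]
    · simp [hA]
    · simp
  · have hA' : 0 < ‖A‖ := norm_pos_iff.mpr hA
    have hcs : (inner ℝ A B / ‖A‖) ^ 2 ≤ ‖B‖ ^ 2 := by
      rw [div_pow, div_le_iff₀ (by positivity)]
      have := abs_real_inner_le_norm A B
      have h2 := sq_le_sq' (abs_le.mp this).1 (abs_le.mp this).2
      nlinarith
    refine ⟨‖A‖, inner ℝ A B / ‖A‖, √(‖B‖ ^ 2 - (inner ℝ A B / ‖A‖) ^ 2), rfl, ?_, ?_⟩
    · field_simp
    · rw [Real.sq_sqrt (by linarith)]
      ring

/-- The dual quadratic form of the metric, multiplied by its determinant. -/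
def quad (E F G a b : ℝ) : ℝ := G * a ^ 2 - 2 * F * a * b + E * b ^ 2

lemma quad_nonneg {E F G : ℝ} (hE : 0 < E) (hD : 0 < E * G - F ^ 2) (a b : ℝ) :
    0 ≤ quad E F G a b := by
  unfold quad
  have h1 : 0 ≤ E * (G * a ^ 2 - 2 * F * a * b + E * b ^ 2) := by
    have : E * (G * a ^ 2 - 2 * F * a * b + E * b ^ 2)
        = (E * b - F * a) ^ 2 + (E * G - F ^ 2) * a ^ 2 := by ring
    rw [this]
    positivity
  exact nonneg_of_mul_nonneg_right h1 hE

/-- Twice the density of the energy of a map with partial derivatives `A`, `B`. -/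
noncomputable def equad (E F G : ℝ) (A B : V) : ℝ :=
  G * ‖A‖ ^ 2 - 2 * F * inner ℝ A B + E * ‖B‖ ^ 2

lemma equad_nonneg {E F G : ℝ} (hE : 0 < E) (hD : 0 < E * G - F ^ 2) (A B : V) :
    0 ≤ equad E F G A B := by
  obtain ⟨l, m, r, h1, h2, h3⟩ := exists_chol A B
  unfold equad
  rw [← h1, ← h2, ← h3]
  have e : G * l ^ 2 - 2 * F * (l * m) + E * (m ^ 2 + r ^ 2) = quad E F G l m + E * r ^ 2 := by
    unfold quad; ring
  rw [e]
  have := quad_nonneg hE hD l m
  positivity

/-- The average over Gaussian vectors of the length of the differential of the steep functions is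
at most the square root of the energy density. -/
lemma pointwise_gauss {n : ℕ} (hn : 0 < n) {w A B : V} (hw : ‖w‖ = 1) (hA : inner ℝ w A = 0)
    (hB : inner ℝ w B = 0) {E F G : ℝ} (hE : 0 < E) (hD : 0 < E * G - F ^ 2) :
    ∫⁻ v, ENNReal.ofReal (psi' n (inner ℝ w v) * √(quad E F G (inner ℝ A v) (inner ℝ B v)))
      ∂(stdGaussian V) ≤ ENNReal.ofReal (√(equad E F G A B / 2)) := by
  obtain ⟨l, m, r, h1, h2, h3⟩ := exists_chol A B
  set R : ℝ × ℝ → ℝ := fun u => quad E F G (l * u.1) (m * u.1 + r * u.2) with hR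
  have hRc : Continuous R := by
    simp only [hR]; unfold quad; fun_prop
  have hq0 := equad_nonneg hE hD A B
  have hq : equad E F G A B = G * l ^ 2 - 2 * F * (l * m) + E * (m ^ 2 + r ^ 2) := by
    unfold equad; rw [← h1, ← h2, ← h3]
  have hRq : ∀ u : ℝ × ℝ, R u + R (u.2, -u.1) = equad E F G A B * (u.1 ^ 2 + u.2 ^ 2) := by
    intro u
    rw [hq]
    simp only [hR, quad]
    ring
  have hlaw := law hw hA hB h1 h2 h3
  have hmeas : Measurable (fun z : ℝ × (ℝ × ℝ) =>
      ENNReal.ofReal (psi' n z.1 * √(quad E F G z.2.1 z.2.2))) := by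
    have := continuous_psi' n
    unfold quad
    fun_prop
  have e1 : ∫⁻ v, ENNReal.ofReal (psi' n (inner ℝ w v)
        * √(quad E F G (inner ℝ A v) (inner ℝ B v))) ∂(stdGaussian V)
      = ∫⁻ z, ENNReal.ofReal (psi' n z.1 * √(quad E F G z.2.1 z.2.2))
        ∂((stdGaussian V).map (fun v => (inner ℝ w v, (inner ℝ A v, inner ℝ B v)))) := by
    rw [lintegral_map hmeas (by fun_prop)]
  have e2 : ∫⁻ z, ENNReal.ofReal (psi' n z.1 * √(quad E F G z.2.1 z.2.2))
        ∂((gam.prod (gam.prod gam)).map (fun z => (z.1, (l * z.2.1, m * z.2.1 + r * z.2.2))))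
      = ∫⁻ z : ℝ × (ℝ × ℝ), ENNReal.ofReal (psi' n z.1) * ENNReal.ofReal (√(R z.2))
        ∂(gam.prod (gam.prod gam)) := by
    rw [lintegral_map hmeas (by fun_prop)]
    apply lintegral_congr
    intro z
    rw [ENNReal.ofReal_mul (psi'_nonneg _ _)]
  have e5 := lintegral_prod_mul (μ := gam) (ν := gam.prod gam)
    (f := fun z => ENNReal.ofReal (psi' n z)) (g := fun u => ENNReal.ofReal (√(R u)))
    ((continuous_psi' n).measurable.ennreal_ofReal.aemeasurable) (by fun_prop)
  rw [e1, hlaw, e2, e5]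
  have e3 := lintegral_psi' hn
  have e4 := lintegral_sqrt_le R hRc (equad E F G A B) hq0
    (fun u => quad_nonneg hE hD _ _) hRq
  refine (mul_le_mul' e3 e4).trans ?_
  rw [← ENNReal.ofReal_mul (by positivity)]
  apply ENNReal.ofReal_le_ofReal
  apply le_of_eq
  have : √(2 * π) ≠ 0 := by positivity
  field_simp

/-- The law of one functional. -/
lemma law_one {w : V} (hw : ‖w‖ = 1) : (stdGaussian V).map (fun v => inner ℝ w v) = gam := by
  have h := law (w := w) (A := 0) (B := 0) hw (by simp) (by simp) (l := 0) (m := 0) (r := 0)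
    (by simp) (by simp) (by simp)
  have h1 : Measure.map Prod.fst _ = Measure.map Prod.fst _ :=
    congrArg (fun μ : Measure (ℝ × (ℝ × ℝ)) => μ.map Prod.fst) h
  rw [Measure.map_map (by fun_prop) (by fun_prop), Measure.map_map (by fun_prop) (by fun_prop)]
    at h1
  have e1 : (Prod.fst ∘ fun v : V => ((inner ℝ w v : ℝ), ((inner ℝ (0 : V) v : ℝ),
      (inner ℝ (0 : V) v : ℝ)))) = fun v => inner ℝ w v := rfl
  have e2 : (Prod.fst ∘ fun z : ℝ × (ℝ × ℝ) => (z.1, ((0 : ℝ) * z.2.1, 0 * z.2.1 + 0 * z.2.2)))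
      = Prod.fst := rfl
  rw [e1, e2] at h1
  rw [h1]
  exact Measure.fst_prod

/-- The average of the squares of the steep functions. -/
noncomputable def cn (n : ℕ) : ℝ := ∫ z, psi n z ^ 2 ∂gam

lemma integral_psi_sq (n : ℕ) {w : V} (hw : ‖w‖ = 1) :
    ∫ v, psi n (inner ℝ w v) ^ 2 ∂(stdGaussian V) = cn n := by
  unfold cn
  rw [← law_one hw, integral_map (by fun_prop)]
  exact ((continuous_psi n).pow 2).aestronglyMeasurable

lemma tendsto_cn : Filter.Tendsto cn Filter.atTop (nhds 1) := by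
  have h1 : (1 : ℝ) = ∫ _z : ℝ, (1 : ℝ) ∂gam := by simp
  unfold cn
  nth_rw 1 [h1]
  apply tendsto_integral_of_dominated_convergence (fun _ => (1 : ℝ))
  · intro n
    exact ((continuous_psi n).pow 2).aestronglyMeasurable
  · exact integrable_const _
  · intro n
    apply Filter.Eventually.of_forall
    intro z
    rw [Real.norm_eq_abs, abs_pow]
    exact pow_le_one₀ (abs_nonneg _) (abs_psi_le n z)
  · have hne : ∀ᵐ z ∂gam, z ≠ 0 := by
      have : gam {0} = 0 := by
        have := nullSingletonClass_gaussianReal (μ := 0) (v := 1) one_ne_zero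
        exact measure_singleton 0
      rw [ae_iff]
      simpa using this
    filter_upwards [hne] with z hz
    have hlim : Filter.Tendsto (fun n : ℕ => arctan (n * |z|)) Filter.atTop (nhds (π / 2)) := by
      have h2 : Filter.Tendsto (fun n : ℕ => (n : ℝ) * |z|) Filter.atTop Filter.atTop :=
        Filter.Tendsto.atTop_mul_const (abs_pos.mpr hz) tendsto_natCast_atTop_atTop
      exact (tendsto_arctan_atTop.mono_right nhdsWithin_le_nhds).comp h2
    have h3 := (hlim.const_mul (2 / π)).pow 2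
    have e : (2 / π * (π / 2)) ^ 2 = 1 := by field_simp
    rw [e] at h3
    refine h3.congr ?_
    intro n
    unfold psi
    rcases abs_cases z with h | h
    · rw [h.1]
    · rw [h.1, mul_neg, arctan_neg]
      ring

end law

end Pool.Agent.TH172.FA
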