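import Mathlib
import Pool.Agent.TH172.FA.Gauss
import Pool.Agent.TH172.FA.Bdry

/-! # Stokes' theorem for the steep functions of a sphere valued map -/

open Finset Real MeasureTheory Filter Topology Set

namespace Pool.Agent.TH172.FA

open Pool.Agent.H115R3.Filling Pool.Agent.W664.Fill

/-- The discretised integral converges to the integral of the Jacobian. -/
theorem cell_limit (g : RiemMetric) (u w : ℝ × ℝ → ℝ) (hu : SegLip g u) (hw : SegLip g w) :
    Tendsto (fun n : ℕ =>
      ∑ q ∈ (range n ×ˢ range n : Finset (ℕ × ℕ)), cellSum u w n q.1 q.2)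
      atTop (𝓝 (∫ x in Sqo, jac u w x)) := by
  obtain ⟨C, hC0, hC⟩ := g.exists_bound
  have hAl : ∀ p ∈ Sq, ∀ q ∈ Sq, |u q - u p| ≤ C * ‖q - p‖ :=
    fun p hp q hq => hu.lipschitz hC hp hq
  have hBl : ∀ p ∈ Sq, ∀ q ∈ Sq, |w q - w p| ≤ C * ‖q - p‖ :=
    fun p hp q hq => hw.lipschitz hC hp hq
  have hrestr : volume.restrict Sqh = volume.restrict Sqo :=
    Measure.restrict_congr_set Sqh_ae_eq_Sqo
  have hSqhm : MeasurableSet Sqh := measurableSet_Ico.prod measurableSet_Ico
  have hlim : ∀ᵐ x ∂(volume.restrict Sqh),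
      Tendsto (fun n => Qf u w n x) atTop (𝓝 (jac u w x)) := by
    rw [hrestr]
    filter_upwards [hu.ae_diff, hw.ae_diff,
      self_mem_ae_restrict isOpen_Sqo.measurableSet] with x hx1 hx2 hxS
    exact tendsto_Qf hxS hx1 hx2
  have hbound : ∀ n : ℕ, 0 < n → ∀ᵐ x ∂(volume.restrict Sqh),
      ‖Qf u w n x‖ ≤ C ^ 2 := by
    intro n hn
    filter_upwards [self_mem_ae_restrict hSqhm] with x hx
    exact Qf_bound hC0 hAl hBl hn hx
  have hfin : IsFiniteMeasure (volume.restrict Sqh) := by
    rw [Measure.restrict_congr_set Sqh_ae_eq_Sq]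
    exact ⟨by rw [Measure.restrict_apply_univ]; exact isCompact_Sq.measure_lt_top⟩
  have hconst : Integrable (fun _ : ℝ × ℝ => C ^ 2) (volume.restrict Sqh) :=
    integrable_const _
  have hint : Tendsto (fun n : ℕ => ∫ x in Sqh, Qf u w n x) atTop
      (𝓝 (∫ x in Sqh, jac u w x)) := by
    refine tendsto_integral_filter_of_dominated_convergence (fun _ => C ^ 2) ?_ ?_ hconst
      hlim
    · exact Eventually.of_forall fun n => (measurable_Qf _ _ n).aestronglyMeasurable
    · filter_upwards [eventually_gt_atTop 0] with n hn using hbound n hn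
  rw [hrestr] at hint
  refine hint.congr' ?_
  filter_upwards [eventually_gt_atTop 0] with n hn
  rw [← hrestr, integral_Qf _ _ hn]

variable {M : Type} [MetricSpace M] (S : OrientedSurface M)

lemma segLip_chart {V : M → ℝ} (hV : ∀ x y, |V x - V y| ≤ dist x y) (k : Fin S.faces) :
    SegLip (S.metric k) (fun p => V (S.chart k p)) := by
  intro p hp q hq
  refine (hV _ _).trans ?_
  rw [dist_comm]
  exact S.dist_le k p hp q hq

/-- Stokes' theorem. -/
theorem stokes (U W : M → ℝ) (hU : ∀ x y, |U x - U y| ≤ dist x y)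
    (hW : ∀ x y, |W x - W y| ≤ dist x y) (L : ℝ)
    (hL : Tendsto (fun n : ℕ => loopSum S.brk
      (fun t => U (S.boundary (t : AddCircle (2 * π))))
      (fun t => W (S.boundary (t : AddCircle (2 * π)))) n / 2) atTop (𝓝 L)) :
    L = ∑ k, ∫ x in Sqo, jac (fun p => U (S.chart k p)) (fun p => W (S.chart k p)) x := by
  have hlim := fun k => cell_limit (S.metric k) (fun p => U (S.chart k p))
    (fun p => W (S.chart k p)) (segLip_chart S hU k) (segLip_chart S hW k)
  have hsum : Tendsto (fun n : ℕ => ∑ k,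
      ∑ q ∈ (Finset.range n ×ˢ Finset.range n : Finset (ℕ × ℕ)),
        cellSum (fun p => U (S.chart k p)) (fun p => W (S.chart k p)) n q.1 q.2)
      atTop (𝓝 (∑ k, ∫ x in Sqo, jac (fun p => U (S.chart k p))
        (fun p => W (S.chart k p)) x)) :=
    tendsto_finsetSum _ (fun k _ => hlim k)
  refine tendsto_nhds_unique (hL.congr' ?_) hsum
  filter_upwards [eventually_gt_atTop 0] with n hn
  have e1 : ∀ k, ∑ q ∈ (Finset.range n ×ˢ Finset.range n : Finset (ℕ × ℕ)),
      cellSum (fun p => U (S.chart k p)) (fun p => W (S.chart k p)) n q.1 q.2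
      = (∑ s : Fin 4, edge (fun t => U (S.chart k (side s t)))
          (fun t => W (S.chart k (side s t))) n) / 2 :=
    fun k => cells_eq _ _ hn
  simp_rw [e1]
  rw [← Finset.sum_div]
  congr 1
  have e2 := sum_sides S U W n
  rw [← Finset.univ_product_univ, Finset.sum_product] at e2
  simp only at e2
  rw [e2]

/-! ### Continuity of the boundary parametrisation -/

lemma chart_dist_le (k : Fin S.faces) : ∃ C : ℝ, 0 ≤ C ∧ ∀ p ∈ Sq, ∀ q ∈ Sq,
    dist (S.chart k p) (S.chart k q) ≤ C * ‖q - p‖ := by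
  obtain ⟨C, hC0, hC⟩ := (S.metric k).exists_bound
  refine ⟨C, hC0, fun p hp q hq => ?_⟩
  refine (S.dist_le k p hp q hq).trans ?_
  apply (S.metric k).segLength_le
  intro t h0 h1
  exact hC _ (seg_mem hp hq h0 h1) _

lemma chart_continuousOn (k : Fin S.faces) : ContinuousOn (S.chart k) Sq := by
  obtain ⟨C, hC0, hC⟩ := chart_dist_le S k
  have : LipschitzOnWith (Real.toNNReal C) (S.chart k) Sq := by
    apply LipschitzOnWith.of_dist_le_mul
    intro x hx y hy
    rw [Real.coe_toNNReal _ hC0, dist_comm x y, dist_eq_norm y x]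
    exact hC x hx y hy
  exact this.continuousOn

lemma side_mem (s : Fin 4) {u : ℝ} (hu : u ∈ Set.Icc (0 : ℝ) 1) : side s u ∈ Sq := by
  obtain ⟨h0, h1⟩ := hu
  match s with
  | 0 => exact ⟨⟨h0, h1⟩, ⟨le_refl _, zero_le_one⟩⟩
  | 1 => exact ⟨⟨zero_le_one, le_refl _⟩, ⟨h0, h1⟩⟩
  | 2 => exact ⟨⟨by simp only [side]; linarith, by simp only [side]; linarith⟩,
      ⟨zero_le_one, le_refl _⟩⟩
  | 3 => exact ⟨⟨le_refl _, zero_le_one⟩,
      ⟨by simp only [side]; linarith, by simp only [side]; linarith⟩⟩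

lemma side_continuous (s : Fin 4) : Continuous (side s) := by
  match s with
  | 0 => exact (by fun_prop : Continuous fun t : ℝ => ((t, 0) : ℝ × ℝ))
  | 1 => exact (by fun_prop : Continuous fun t : ℝ => ((1, t) : ℝ × ℝ))
  | 2 => exact (by fun_prop : Continuous fun t : ℝ => ((1 - t, 1) : ℝ × ℝ))
  | 3 => exact (by fun_prop : Continuous fun t : ℝ => ((0, 1 - t) : ℝ × ℝ))

lemma exists_arc {m : ℕ} (brk : Fin (m + 1) → ℝ) (hm : 0 < m) {t : ℝ} (h0 : brk 0 ≤ t)
    (h1 : t ≤ brk (Fin.last m)) : ∃ k : Fin m, t ∈ Set.Icc (brk k.castSucc) (brk k.succ) := by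
  induction m with
  | zero => omega
  | succ m ih =>
    by_cases ht : brk (Fin.last m).castSucc ≤ t
    · exact ⟨Fin.last m, ht, h1⟩
    · push Not at ht
      rcases Nat.eq_zero_or_pos m with rfl | hm'
      · exfalso
        have : (Fin.last 0).castSucc = (0 : Fin 2) := rfl
        rw [this] at ht
        linarith
      · obtain ⟨k, hk⟩ := ih (fun i => brk i.castSucc) hm' h0 ht.le
        exact ⟨k.castSucc, hk⟩

lemma arcs_pos : 0 < S.arcs := by
  rcases Nat.eq_zero_or_pos S.arcs with h | h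
  · exfalso
    have h1 : Fin.last S.arcs = 0 := by
      apply Fin.ext
      simp [h]
    have h2 := S.brk_last
    rw [h1, S.brk_zero] at h2
    have := Real.pi_pos
    linarith
  · exact h

lemma continuous_boundary : Continuous S.boundary := by
  set f : ℝ → M := fun t => S.boundary (t : AddCircle (2 * π)) with hf
  have hp : (0 : ℝ) < 2 * π := by positivity
  have : Fact ((0 : ℝ) < 2 * π) := ⟨hp⟩
  have h1 : ∀ k : Fin S.arcs, ContinuousOn f (Set.Icc (S.brk k.castSucc) (S.brk k.succ)) := by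
    intro k
    have hk : 0 < S.brk k.succ - S.brk k.castSucc :=
      sub_pos.mpr (S.brk_strictMono (Fin.castSucc_lt_succ))
    set τ : ℝ → ℝ := fun t => (t - S.brk k.castSucc) / (S.brk k.succ - S.brk k.castSucc) with hτ
    have hτm : ∀ t ∈ Set.Icc (S.brk k.castSucc) (S.brk k.succ), τ t ∈ Set.Icc (0 : ℝ) 1 := by
      intro t ht
      refine ⟨div_nonneg (by linarith [ht.1]) hk.le, ?_⟩
      rw [hτ]
      simp only
      rw [div_le_one hk]
      linarith [ht.2]
    have h2 : ContinuousOn (fun t => S.chart (S.arcSide k).1 (side (S.arcSide k).2 (τ t)))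
        (Set.Icc (S.brk k.castSucc) (S.brk k.succ)) := by
      refine (chart_continuousOn S (S.arcSide k).1).comp
        (f := fun t => side (S.arcSide k).2 (τ t)) ?_ ?_
      · apply Continuous.continuousOn
        exact (side_continuous _).comp (by simp only [hτ]; fun_prop)
      · intro t ht
        exact side_mem _ (hτm t ht)
    refine h2.congr ?_
    intro t ht
    have e := S.boundary_eq k (τ t) (hτm t ht)
    have e2 : S.brk k.castSucc + τ t * (S.brk k.succ - S.brk k.castSucc) = t := by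
      rw [hτ]
      simp only
      rw [div_mul_cancel₀ _ hk.ne']
      ring
    rw [e2] at e
    exact e.symm
  have h2 : ContinuousOn f (Set.Icc 0 (2 * π)) := by
    have h3 := (locallyFinite_of_finite
      (fun k : Fin S.arcs => Set.Icc (S.brk k.castSucc) (S.brk k.succ))).continuousOn_iUnion
      (fun k => isClosed_Icc) h1
    refine h3.mono ?_
    intro t ht
    rw [Set.mem_iUnion]
    apply exists_arc S.brk (arcs_pos S)
    · rw [S.brk_zero]; exact ht.1
    · rw [S.brk_last]; exact ht.2
  have h3 : f 0 = f (2 * π) := by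
    simp only [hf]
    congr 1
    rw [AddCircle.coe_period]
    simp
  have h4 := AddCircle.liftIco_zero_continuous h3 h2
  have h5 : AddCircle.liftIco (2 * π) 0 f = S.boundary := by
    funext x
    obtain ⟨t, ht, rfl⟩ : ∃ t ∈ Set.Ico (0 : ℝ) (2 * π), (t : AddCircle (2 * π)) = x := by
      have := (AddCircle.equivIco (2 * π) 0 x).2
      refine ⟨(AddCircle.equivIco (2 * π) 0 x : ℝ), by simpa using this, ?_⟩
      exact AddCircle.coe_equivIco
    rw [AddCircle.liftIco_zero_coe_apply ht]
  rw [← h5]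
  exact h4

end Pool.Agent.TH172.FA
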