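import Mathlib
import Pool.Agent.TH172.FA.Star

/-! # The inequality for one direction -/

open Finset Real MeasureTheory Filter Topology Set
open scoped ENNReal

namespace Pool.Agent.TH172.FA

set_option linter.unusedSectionVars false

open Pool.Agent.H115R3.Filling Pool.Agent.W664.Fill

lemma psi_lip (n : ℕ) (a b : ℝ) : |psi n a - psi n b| ≤ 2 / π * n * |a - b| := by
  have h := Convex.norm_image_sub_le_of_norm_hasDerivWithin_le (f := psi n) (f' := psi' n)
    (s := Set.univ) (C := 2 / π * n) (x := b) (y := a)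
    (fun x _ => (hasDerivAt_psi n x).hasDerivWithinAt)
    (fun x _ => by
      rw [Real.norm_eq_abs, abs_of_nonneg (psi'_nonneg n x)]
      exact psi'_le n x) convex_univ (Set.mem_univ _) (Set.mem_univ _)
  simpa [Real.norm_eq_abs] using h

variable {M : Type} [MetricSpace M] (S : OrientedSurface M)

section

variable {V : Type*} [NormedAddCommGroup V] [InnerProductSpace ℝ V] [FiniteDimensional ℝ V]

/-- The partial derivative in the first coordinate of a map in the `k`-th chart. -/
noncomputable def dx (w : M → V) (k : Fin S.faces) (x : ℝ × ℝ) : V :=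
  fderiv ℝ (fun p => w (S.chart k p)) x (1, 0)

/-- The partial derivative in the second coordinate of a map in the `k`-th chart. -/
noncomputable def dy (w : M → V) (k : Fin S.faces) (x : ℝ × ℝ) : V :=
  fderiv ℝ (fun p => w (S.chart k p)) x (0, 1)

lemma chart_lipOn {w : M → V} {K : ℝ} (hK0 : 0 ≤ K) (hK : ∀ x y, ‖w x - w y‖ ≤ K * dist x y)
    (k : Fin S.faces) : ∃ C : NNReal, LipschitzOnWith C (fun p => w (S.chart k p)) Sq := by
  obtain ⟨C, hC0, hC⟩ := chart_dist_le S k
  refine ⟨Real.toNNReal (K * C), ?_⟩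
  apply LipschitzOnWith.of_dist_le_mul
  intro x hx y hy
  rw [Real.coe_toNNReal _ (by positivity), dist_eq_norm, dist_comm x y, dist_eq_norm y x,
    mul_assoc]
  exact (hK _ _).trans (mul_le_mul_of_nonneg_left (hC x hx y hy) hK0)

lemma ae_diff_chart {w : M → V} {K : ℝ} (hK0 : 0 ≤ K) (hK : ∀ x y, ‖w x - w y‖ ≤ K * dist x y)
    (k : Fin S.faces) :
    ∀ᵐ x ∂(volume.restrict Sqo), DifferentiableAt ℝ (fun p => w (S.chart k p)) x := by
  obtain ⟨C, hC⟩ := chart_lipOn S hK0 hK k
  have h1 := (hC.mono Sqo_sub).ae_differentiableWithinAt (μ := volume) isOpen_Sqo.measurableSet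
  filter_upwards [h1, self_mem_ae_restrict isOpen_Sqo.measurableSet] with x hx hxS
  exact hx.differentiableAt (isOpen_Sqo.mem_nhds hxS)

/-- The bound of the Jacobian. -/
lemma jac_le {g : RiemMetric} {u f : ℝ × ℝ → ℝ} (hf : SegLip g f) {x : ℝ × ℝ} (hx : x ∈ Sqo)
    (hd : DifferentiableAt ℝ f x) :
    |jac u f x| ≤ √(quad (g.E x) (g.F x) (g.G x) (fderiv ℝ u x (1, 0)) (fderiv ℝ u x (0, 1))) := by
  apply Real.le_sqrt_of_sq_le
  have h := hf.deriv_le hx hd (-fderiv ℝ u x (0, 1), fderiv ℝ u x (1, 0))
  have e : fderiv ℝ f x (-fderiv ℝ u x (0, 1), fderiv ℝ u x (1, 0)) = jac u f x := by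
    have : ((-fderiv ℝ u x (0, 1), fderiv ℝ u x (1, 0)) : ℝ × ℝ)
        = (-fderiv ℝ u x (0, 1)) • ((1, 0) : ℝ × ℝ) + (fderiv ℝ u x (1, 0)) • ((0, 1) : ℝ × ℝ) := by
      simp
    rw [this, map_add, map_smul, map_smul]
    unfold jac
    simp only [smul_eq_mul]
    ring
  rw [e] at h
  rw [sq_abs]
  refine h.trans (le_of_eq ?_)
  unfold quad
  simp only
  ring

theorem star (hS : S.NoShortcut) {w : M → V} {K : ℝ} (hK0 : 0 ≤ K)
    (hK : ∀ x y, ‖w x - w y‖ ≤ K * dist x y)
    (hodd : ∀ t : AddCircle (2 * π), w (S.boundary (t + ((π : ℝ) : AddCircle (2 * π))))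
      = - w (S.boundary t)) (n : ℕ) (v : V) :
    ENNReal.ofReal (∫ t in (0 : ℝ)..(2 * π),
        psi n (inner ℝ (w (S.boundary (t : AddCircle (2 * π)))) v) ^ 2)
      ≤ ∑ k, ∫⁻ x in Sqo, ENNReal.ofReal (psi' n (inner ℝ (w (S.chart k x)) v)
        * √(quad ((S.metric k).E x) ((S.metric k).F x) ((S.metric k).G x)
          (inner ℝ (dx S w k x) v) (inner ℝ (dy S w k x) v))) := by
  set C : ℝ := 2 / π * n * (K * ‖v‖) + 1 with hC
  have hC0 : 0 < C := by positivity
  set U : M → ℝ := fun x => C⁻¹ * psi n (inner ℝ (w x) v) with hU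
  have hUl : ∀ x y, |U x - U y| ≤ dist x y := by
    intro x y
    simp only [hU]
    rw [← mul_sub, abs_mul, abs_of_pos (inv_pos.mpr hC0), inv_mul_le_iff₀ hC0]
    have h1 := psi_lip n (inner ℝ (w x) v) (inner ℝ (w y) v)
    have h2 : |inner ℝ (w x) v - inner ℝ (w y) v| ≤ K * dist x y * ‖v‖ := by
      rw [← inner_sub_left]
      exact (abs_real_inner_le_norm _ _).trans
        (mul_le_mul_of_nonneg_right (hK x y) (norm_nonneg _))
    have h3 : 0 ≤ 2 / π * (n : ℝ) := by positivity
    have h4 := mul_le_mul_of_nonneg_left h2 h3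
    have h5 : 0 ≤ dist x y := dist_nonneg
    calc _ ≤ _ := h1
      _ ≤ 2 / π * n * (K * dist x y * ‖v‖) := h4
      _ = 2 / π * n * (K * ‖v‖) * dist x y := by ring
      _ ≤ C * dist x y := by
        apply mul_le_mul_of_nonneg_right _ h5
        rw [hC]; linarith
  -- the boundary function and its primitive
  set α : ℝ → ℝ := fun t => psi n (inner ℝ (w (S.boundary (t : AddCircle (2 * π)))) v) with hα
  have hwc : Continuous w := by
    have : LipschitzWith (Real.toNNReal K) w := by
      apply LipschitzWith.of_dist_le_mul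
      intro x y
      rw [Real.coe_toNNReal _ hK0, dist_eq_norm]
      exact hK x y
    exact this.continuous
  have hαc : Continuous α := by
    have h1 := continuous_boundary S
    have h2 : Continuous fun t : ℝ => (t : AddCircle (2 * π)) := AddCircle.continuous_mk' _
    have h3 := hwc.comp (h1.comp h2)
    exact (continuous_psi n).comp (h3.inner continuous_const)
  have hαp : Function.Periodic α (2 * π) := by
    intro t
    simp only [hα]
    rw [AddCircle.coe_add_period]
  have hαo : ∀ t, α (t + π) = -α t := by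
    intro t
    simp only [hα]
    rw [AddCircle.coe_add, hodd, inner_neg_left, psi_neg]
  have hαb : ∀ t, |α t| ≤ 1 := fun t => abs_psi_le _ _
  have hint : ∀ a b : ℝ, IntervalIntegrable α volume a b := fun a b =>
    hαc.intervalIntegrable a b
  have hzero : ∫ t in (0 : ℝ)..(2 * π), α t = 0 := by
    rw [← intervalIntegral.integral_add_adjacent_intervals (hint 0 π) (hint π (2 * π))]
    have h1 := intervalIntegral.integral_comp_add_right (a := 0) (b := π) α π
    have h2 : ∫ t in (0 : ℝ)..π, α (t + π) = -∫ t in (0 : ℝ)..π, α t := by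
      rw [← intervalIntegral.integral_neg]
      apply intervalIntegral.integral_congr
      intro t _
      exact hαo t
    rw [h2, zero_add, show π + π = 2 * π by ring] at h1
    rw [← h1]
    ring
  set β : ℝ → ℝ := fun t => ∫ x in (0 : ℝ)..t, α x with hβ
  have hβd : ∀ s t, β t - β s = ∫ x in s..t, α x := by
    intro s t
    simp only [hβ]
    exact intervalIntegral.integral_interval_sub_left (hint _ _) (hint _ _)
  have hβp : Function.Periodic β (2 * π) := by
    intro t
    have h1 := hβd t (t + 2 * π)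
    rw [hαp.intervalIntegral_add_eq t 0, zero_add, hzero] at h1
    linarith
  have hβl : ∀ s t, |β s - β t| ≤ |s - t| := by
    intro s t
    rw [hβd t s]
    have h1 := intervalIntegral.norm_integral_le_of_norm_le_const (a := t) (b := s) (C := 1)
      (f := α) (fun x _ => by rw [Real.norm_eq_abs]; exact hαb x)
    rw [Real.norm_eq_abs, one_mul] at h1
    exact h1
  set W : M → ℝ := mext S.boundary hβp.lift with hW
  have hlift := lift_lip hβp hβl
  have hWl : ∀ x y, |W x - W y| ≤ dist x y := mext_lip hS hlift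
  have hWb : ∀ t : ℝ, W (S.boundary (t : AddCircle (2 * π))) = β t := by
    intro t
    rw [hW, mext_boundary hS hlift, Function.Periodic.lift_coe]
  -- the limit of the loop sums
  have hαe : α (S.brk (Fin.last S.arcs)) = α (S.brk 0) := by
    rw [S.brk_last, S.brk_zero]
    have := hαp 0
    rwa [zero_add] at this
  have hβe : β (S.brk (Fin.last S.arcs)) = β (S.brk 0) := by
    rw [S.brk_last, S.brk_zero]
    have := hβp 0
    rwa [zero_add] at this
  have hL := tendsto_loopSum S.brk S.brk_strictMono hαc hαb hαe hβe hβd C⁻¹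
  rw [S.brk_last, S.brk_zero] at hL
  have hL2 : Tendsto (fun n : ℕ => loopSum S.brk
      (fun t => U (S.boundary (t : AddCircle (2 * π))))
      (fun t => W (S.boundary (t : AddCircle (2 * π)))) n / 2) atTop
      (𝓝 (C⁻¹ * ∫ t in (0 : ℝ)..(2 * π), α t ^ 2)) := by
    have e1 : (fun t : ℝ => W (S.boundary (t : AddCircle (2 * π)))) = β := funext hWb
    have e2 := hL.div_const 2
    rw [show 2 * C⁻¹ * (∫ t in (0 : ℝ)..(2 * π), α t ^ 2) / 2
      = C⁻¹ * ∫ t in (0 : ℝ)..(2 * π), α t ^ 2 by ring] at e2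
    rw [e1]
    exact e2
  have hst := stokes S U W hUl hWl _ hL2
  -- the pointwise bound
  have hpt : ∀ k, ∀ᵐ x ∂(volume.restrict Sqo),
      ‖jac (fun p => U (S.chart k p)) (fun p => W (S.chart k p)) x‖ₑ
        ≤ ENNReal.ofReal C⁻¹ * ENNReal.ofReal (psi' n (inner ℝ (w (S.chart k x)) v)
        * √(quad ((S.metric k).E x) ((S.metric k).F x) ((S.metric k).G x)
          (inner ℝ (dx S w k x) v) (inner ℝ (dy S w k x) v))) := by
    intro k
    filter_upwards [ae_diff_chart S hK0 hK k, (segLip_chart S hWl k).ae_diff,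
      self_mem_ae_restrict isOpen_Sqo.measurableSet] with x hx1 hx2 hxS
    have h1 := jac_le (u := fun p => U (S.chart k p)) (segLip_chart S hWl k) hxS hx2
    have hd : ∀ e : ℝ × ℝ, fderiv ℝ (fun p => U (S.chart k p)) x e
        = C⁻¹ * psi' n (inner ℝ (w (S.chart k x)) v)
          * inner ℝ (fderiv ℝ (fun p => w (S.chart k p)) x e) v := by
      intro e
      have f1 : HasFDerivAt (fun p => inner ℝ (w (S.chart k p)) v)
          ((innerSL ℝ v).comp (fderiv ℝ (fun p => w (S.chart k p)) x)) x := by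
        have := (innerSL ℝ v).hasFDerivAt.comp x hx1.hasFDerivAt
        refine this.congr_of_eventuallyEq (Eventually.of_forall fun p => ?_)
        simp [real_inner_comm]
      have f2 := ((hasDerivAt_psi n (inner ℝ (w (S.chart k x)) v)).comp_hasFDerivAt x f1).const_mul
        C⁻¹
      have f3 : HasFDerivAt (fun p => U (S.chart k p))
          (C⁻¹ • (psi' n (inner ℝ (w (S.chart k x)) v)
            • (innerSL ℝ v).comp (fderiv ℝ (fun p => w (S.chart k p)) x))) x := f2
      rw [f3.fderiv]
      simp only [_root_.smul_apply, ContinuousLinearMap.comp_apply, smul_eq_mul,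
        innerSL_apply_apply]
      rw [real_inner_comm (fderiv ℝ (fun p => w (S.chart k p)) x e) v]
      ring
    rw [hd, hd] at h1
    rw [Real.enorm_eq_ofReal_abs, ← ENNReal.ofReal_mul (by positivity)]
    apply ENNReal.ofReal_le_ofReal
    refine h1.trans (le_of_eq ?_)
    have e1 : quad ((S.metric k).E x) ((S.metric k).F x) ((S.metric k).G x)
        (C⁻¹ * psi' n (inner ℝ (w (S.chart k x)) v)
          * inner ℝ (fderiv ℝ (fun p => w (S.chart k p)) x (1, 0)) v)
        (C⁻¹ * psi' n (inner ℝ (w (S.chart k x)) v)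
          * inner ℝ (fderiv ℝ (fun p => w (S.chart k p)) x (0, 1)) v)
        = (C⁻¹ * psi' n (inner ℝ (w (S.chart k x)) v)) ^ 2
          * quad ((S.metric k).E x) ((S.metric k).F x) ((S.metric k).G x)
          (inner ℝ (dx S w k x) v) (inner ℝ (dy S w k x) v) := by
      unfold quad dx dy
      ring
    rw [e1, Real.sqrt_mul (sq_nonneg _), Real.sqrt_sq (mul_nonneg (by positivity)
      (psi'_nonneg _ _))]
    ring
  -- conclusion
  have hfin : ENNReal.ofReal (C⁻¹ * ∫ t in (0 : ℝ)..(2 * π), α t ^ 2)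
      ≤ ENNReal.ofReal C⁻¹ * ∑ k, ∫⁻ x in Sqo,
        ENNReal.ofReal (psi' n (inner ℝ (w (S.chart k x)) v)
        * √(quad ((S.metric k).E x) ((S.metric k).F x) ((S.metric k).G x)
          (inner ℝ (dx S w k x) v) (inner ℝ (dy S w k x) v))) := by
    refine (Real.ofReal_le_enorm _).trans ?_
    rw [hst]
    refine (enorm_sum_le _ _).trans ?_
    rw [Finset.mul_sum]
    apply Finset.sum_le_sum
    intro k _
    refine (enorm_integral_le_lintegral_enorm _).trans ?_
    refine (lintegral_mono_ae (hpt k)).trans (le_of_eq ?_)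
    rw [lintegral_const_mul' _ _ ENNReal.ofReal_ne_top]
  rw [ENNReal.ofReal_mul (by positivity)] at hfin
  exact (ENNReal.mul_le_mul_iff_right (by simpa using hC0) ENNReal.ofReal_ne_top).mp hfin

end

end Pool.Agent.TH172.FA
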