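import Mathlib
import Pool.Agent.TH172.FA.Star2

/-! # Averaging over all directions, and the energy inequality -/

open Finset Real MeasureTheory Filter Topology Set ProbabilityTheory
open scoped ENNReal

namespace Pool.Agent.TH172.FA

set_option linter.unusedSectionVars false

open Pool.Agent.H115R3.Filling Pool.Agent.W664.Fill

variable {M : Type} [MetricSpace M] (S : OrientedSurface M)

variable {V : Type*} [NormedAddCommGroup V] [InnerProductSpace ℝ V] [FiniteDimensional ℝ V]

/-- Twice the energy density times the determinant, in the `k`-th chart. -/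
noncomputable def eq2 (w : M → V) (k : Fin S.faces) (x : ℝ × ℝ) : ℝ :=
  equad ((S.metric k).E x) ((S.metric k).F x) ((S.metric k).G x) (dx S w k x) (dy S w k x)

/-- The determinant of the metric in the `k`-th chart. -/
noncomputable def det (k : Fin S.faces) (x : ℝ × ℝ) : ℝ :=
  (S.metric k).E x * (S.metric k).G x - (S.metric k).F x ^ 2

lemma restrict_Sq : (volume.restrict Sq : Measure (ℝ × ℝ)) = volume.restrict Sqo := by
  rw [← Measure.restrict_congr_set Sqh_ae_eq_Sq, Measure.restrict_congr_set Sqh_ae_eq_Sqo]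

lemma measurableSet_Sqo : MeasurableSet Sqo := isOpen_Sqo.measurableSet

instance : IsFiniteMeasure (volume.restrict Sqo : Measure (ℝ × ℝ)) := by
  rw [← restrict_Sq]
  exact ⟨by rw [Measure.restrict_apply_univ]; exact isCompact_Sq.measure_lt_top⟩

section meas

variable [MeasurableSpace V] [BorelSpace V]

lemma measurable_dx (w : M → V) (k : Fin S.faces) : Measurable (dx S w k) :=
  measurable_fderiv_apply_const ℝ _ _

lemma measurable_dy (w : M → V) (k : Fin S.faces) : Measurable (dy S w k) :=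
  measurable_fderiv_apply_const ℝ _ _

lemma aem_E (k : Fin S.faces) : AEMeasurable (S.metric k).E (volume.restrict Sqo) :=
  ((S.metric k).continuousOn_E.mono Sqo_sub).aemeasurable measurableSet_Sqo

lemma aem_F (k : Fin S.faces) : AEMeasurable (S.metric k).F (volume.restrict Sqo) :=
  ((S.metric k).continuousOn_F.mono Sqo_sub).aemeasurable measurableSet_Sqo

lemma aem_G (k : Fin S.faces) : AEMeasurable (S.metric k).G (volume.restrict Sqo) :=
  ((S.metric k).continuousOn_G.mono Sqo_sub).aemeasurable measurableSet_Sqo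

lemma aem_w {w : M → V} {K : ℝ} (hK0 : 0 ≤ K) (hK : ∀ x y, ‖w x - w y‖ ≤ K * dist x y)
    (k : Fin S.faces) : AEMeasurable (fun x => w (S.chart k x)) (volume.restrict Sqo) := by
  obtain ⟨C, hC⟩ := chart_lipOn S hK0 hK k
  exact (hC.continuousOn.mono Sqo_sub).aemeasurable measurableSet_Sqo

lemma aem_eq2 (w : M → V) (k : Fin S.faces) :
    AEMeasurable (eq2 S w k) (volume.restrict Sqo) := by
  unfold eq2 equad
  have h1 := (measurable_dx S w k).aemeasurable (μ := volume.restrict Sqo)
  have h2 := (measurable_dy S w k).aemeasurable (μ := volume.restrict Sqo)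
  exact (((aem_G S k).mul (h1.norm.pow_const 2)).sub
    (((aem_F S k).const_mul 2).mul (h1.inner h2))).add ((aem_E S k).mul (h2.norm.pow_const 2))

lemma eq2_nonneg (w : M → V) (k : Fin S.faces) {x : ℝ × ℝ} (hx : x ∈ Sq) :
    0 ≤ eq2 S w k x := equad_nonneg ((S.metric k).pos_E x hx) ((S.metric k).pos_det x hx) _ _

end meas

/-- The quadratic form is bounded. -/
lemma eq2_bdd {w : M → V} {K : ℝ} (hK0 : 0 ≤ K) (hK : ∀ x y, ‖w x - w y‖ ≤ K * dist x y)
    (k : Fin S.faces) : ∃ B : ℝ, 0 ≤ B ∧ ∀ x ∈ Sqo, eq2 S w k x ≤ B := by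
  obtain ⟨C, hC⟩ := chart_lipOn S hK0 hK k
  obtain ⟨B1, h1⟩ := isCompact_Sq.exists_bound_of_continuousOn (S.metric k).continuousOn_E
  obtain ⟨B2, h2⟩ := isCompact_Sq.exists_bound_of_continuousOn (S.metric k).continuousOn_F
  obtain ⟨B3, h3⟩ := isCompact_Sq.exists_bound_of_continuousOn (S.metric k).continuousOn_G
  refine ⟨(|B1| + 2 * |B2| + |B3|) * (C : ℝ) ^ 2, by positivity, ?_⟩
  intro x hx
  have hxS := Sqo_sub hx
  have hn : Sq ∈ 𝓝 x := mem_of_superset (isOpen_Sqo.mem_nhds hx) Sqo_sub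
  have hd : ‖fderiv ℝ (fun p => w (S.chart k p)) x‖ ≤ C := norm_fderiv_le_of_lipschitzOn ℝ hn hC
  have hdx : ‖dx S w k x‖ ≤ C := by
    unfold dx
    refine (ContinuousLinearMap.le_opNorm _ _).trans ?_
    have : ‖((1, 0) : ℝ × ℝ)‖ = 1 := by simp [Prod.norm_def]
    rw [this, mul_one]
    exact hd
  have hdy : ‖dy S w k x‖ ≤ C := by
    unfold dy
    refine (ContinuousLinearMap.le_opNorm _ _).trans ?_
    have : ‖((0, 1) : ℝ × ℝ)‖ = 1 := by simp [Prod.norm_def]
    rw [this, mul_one]
    exact hd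
  have e1 : |(S.metric k).E x| ≤ |B1| := (h1 x hxS).trans (le_abs_self _)
  have e2 : |(S.metric k).F x| ≤ |B2| := (h2 x hxS).trans (le_abs_self _)
  have e3 : |(S.metric k).G x| ≤ |B3| := (h3 x hxS).trans (le_abs_self _)
  have hC0 : (0 : ℝ) ≤ C := C.2
  have i1 : |inner ℝ (dx S w k x) (dy S w k x)| ≤ (C : ℝ) ^ 2 := by
    refine (abs_real_inner_le_norm _ _).trans ?_
    calc _ ≤ (C : ℝ) * C := mul_le_mul hdx hdy (norm_nonneg _) hC0
      _ = (C : ℝ) ^ 2 := by ring
  have i2 : ‖dx S w k x‖ ^ 2 ≤ (C : ℝ) ^ 2 := pow_le_pow_left₀ (norm_nonneg _) hdx 2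
  have i3 : ‖dy S w k x‖ ^ 2 ≤ (C : ℝ) ^ 2 := pow_le_pow_left₀ (norm_nonneg _) hdy 2
  unfold eq2 equad
  have j1 : (S.metric k).G x * ‖dx S w k x‖ ^ 2 ≤ |B3| * (C : ℝ) ^ 2 :=
    (mul_le_mul_of_nonneg_right ((le_abs_self _).trans e3) (by positivity)).trans
      (mul_le_mul_of_nonneg_left i2 (abs_nonneg _))
  have j2 : (S.metric k).E x * ‖dy S w k x‖ ^ 2 ≤ |B1| * (C : ℝ) ^ 2 :=
    (mul_le_mul_of_nonneg_right ((le_abs_self _).trans e1) (by positivity)).trans
      (mul_le_mul_of_nonneg_left i3 (abs_nonneg _))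
  have j3 : -(2 * (S.metric k).F x * inner ℝ (dx S w k x) (dy S w k x))
      ≤ 2 * |B2| * (C : ℝ) ^ 2 := by
    refine (neg_le_abs _).trans ?_
    rw [abs_mul, abs_mul, abs_of_pos (by norm_num : (0 : ℝ) < 2)]
    exact mul_le_mul (mul_le_mul_of_nonneg_left e2 (by norm_num)) i1 (abs_nonneg _)
      (by positivity)
  linarith

section avg

variable [MeasurableSpace V] [BorelSpace V]

/-- The integrand of the double average. -/
noncomputable def ff (w : M → V) (n : ℕ) (k : Fin S.faces) (v : V) (x : ℝ × ℝ) : ℝ≥0∞ :=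
  ENNReal.ofReal (psi' n (inner ℝ (w (S.chart k x)) v)
    * √(quad ((S.metric k).E x) ((S.metric k).F x) ((S.metric k).G x)
      (inner ℝ (dx S w k x) v) (inner ℝ (dy S w k x) v)))

lemma aem_ff {w : M → V} {K : ℝ} (hK0 : 0 ≤ K) (hK : ∀ x y, ‖w x - w y‖ ≤ K * dist x y) (n : ℕ)
    (k : Fin S.faces) :
    AEMeasurable (Function.uncurry (ff S w n k)) ((stdGaussian V).prod (volume.restrict Sqo)) := by
  have q := Measure.quasiMeasurePreserving_snd (μ := stdGaussian V)
    (ν := (volume.restrict Sqo : Measure (ℝ × ℝ)))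
  have h1 : AEMeasurable (fun z : V × (ℝ × ℝ) => w (S.chart k z.2))
      ((stdGaussian V).prod (volume.restrict Sqo)) :=
    (aem_w S hK0 hK k).comp_quasiMeasurePreserving q
  have hE : AEMeasurable (fun z : V × (ℝ × ℝ) => (S.metric k).E z.2)
      ((stdGaussian V).prod (volume.restrict Sqo)) := (aem_E S k).comp_quasiMeasurePreserving q
  have hF : AEMeasurable (fun z : V × (ℝ × ℝ) => (S.metric k).F z.2)
      ((stdGaussian V).prod (volume.restrict Sqo)) := (aem_F S k).comp_quasiMeasurePreserving q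
  have hG : AEMeasurable (fun z : V × (ℝ × ℝ) => (S.metric k).G z.2)
      ((stdGaussian V).prod (volume.restrict Sqo)) := (aem_G S k).comp_quasiMeasurePreserving q
  have hx : AEMeasurable (fun z : V × (ℝ × ℝ) => dx S w k z.2)
      ((stdGaussian V).prod (volume.restrict Sqo)) :=
    ((measurable_dx S w k).comp measurable_snd).aemeasurable
  have hy : AEMeasurable (fun z : V × (ℝ × ℝ) => dy S w k z.2)
      ((stdGaussian V).prod (volume.restrict Sqo)) :=
    ((measurable_dy S w k).comp measurable_snd).aemeasurable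
  have hv : AEMeasurable (fun z : V × (ℝ × ℝ) => z.1)
      ((stdGaussian V).prod (volume.restrict Sqo)) := measurable_fst.aemeasurable
  have i1 := h1.inner hv (𝕜 := ℝ)
  have i2 := hx.inner hv (𝕜 := ℝ)
  have i3 := hy.inner hv (𝕜 := ℝ)
  have m1 := (continuous_psi' n).measurable.comp_aemeasurable i1
  have m2 : AEMeasurable (fun z : V × (ℝ × ℝ) =>
      quad ((S.metric k).E z.2) ((S.metric k).F z.2) ((S.metric k).G z.2)
      (inner ℝ (dx S w k z.2) z.1) (inner ℝ (dy S w k z.2) z.1))
      ((stdGaussian V).prod (volume.restrict Sqo)) := by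
    unfold quad
    exact ((hG.mul (i2.pow_const 2)).sub (((hF.const_mul 2).mul i2).mul i3)).add
      (hE.mul (i3.pow_const 2))
  have m3 := Real.continuous_sqrt.measurable.comp_aemeasurable m2
  exact (m1.mul m3).ennreal_ofReal

lemma inner_deriv_zero {w : M → V} (h1 : ∀ x, ‖w x‖ = 1) (k : Fin S.faces) {x : ℝ × ℝ}
    (hd : DifferentiableAt ℝ (fun p => w (S.chart k p)) x) (e : ℝ × ℝ) :
    inner ℝ (w (S.chart k x)) (fderiv ℝ (fun p => w (S.chart k p)) x e) = 0 := by
  have f1 : HasFDerivAt (fun p => inner ℝ (w (S.chart k p)) (w (S.chart k p)))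
      ((fderivInnerCLM ℝ (w (S.chart k x), w (S.chart k x))).comp
        ((fderiv ℝ (fun p => w (S.chart k p)) x).prod (fderiv ℝ (fun p => w (S.chart k p)) x))) x :=
    hd.hasFDerivAt.inner ℝ hd.hasFDerivAt
  have f2 : HasFDerivAt (fun p => inner ℝ (w (S.chart k p)) (w (S.chart k p)))
      (0 : (ℝ × ℝ) →L[ℝ] ℝ) x := by
    have : (fun p => inner ℝ (w (S.chart k p)) (w (S.chart k p))) = fun _ => (1 : ℝ) := by
      funext p
      rw [real_inner_self_eq_norm_sq, h1]
      norm_num
    rw [this]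
    exact hasFDerivAt_const _ _
  have f3 := congrArg (fun L : (ℝ × ℝ) →L[ℝ] ℝ => L e) (f1.unique f2)
  simp only [ContinuousLinearMap.comp_apply, ContinuousLinearMap.prod_apply,
    fderivInnerCLM_apply, _root_.zero_apply] at f3
  rw [real_inner_comm (w (S.chart k x)) (fderiv ℝ (fun p => w (S.chart k p)) x e)] at f3
  linarith

/-- The averaged inequality. -/
theorem avg_le (hS : S.NoShortcut) {w : M → V} {K : ℝ} (hK0 : 0 ≤ K)
    (hK : ∀ x y, ‖w x - w y‖ ≤ K * dist x y) (h1 : ∀ x, ‖w x‖ = 1)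
    (hodd : ∀ t : AddCircle (2 * π), w (S.boundary (t + ((π : ℝ) : AddCircle (2 * π))))
      = - w (S.boundary t)) {n : ℕ} (hn : 0 < n) :
    ENNReal.ofReal (2 * π * cn n)
      ≤ ∑ k, ∫⁻ x in Sqo, ENNReal.ofReal (√(eq2 S w k x / 2)) := by
  have hwc : Continuous w := by
    have : LipschitzWith (Real.toNNReal K) w := by
      apply LipschitzWith.of_dist_le_mul
      intro x y
      rw [Real.coe_toNNReal _ hK0, dist_eq_norm]
      exact hK x y
    exact this.continuous
  have hbc : Continuous (fun t : ℝ => w (S.boundary (t : AddCircle (2 * π)))) :=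
    hwc.comp ((continuous_boundary S).comp (AddCircle.continuous_mk' _))
  -- the left hand side
  have hcont : Continuous (Function.uncurry (fun (v : V) (t : ℝ) =>
      psi n (inner ℝ (w (S.boundary (t : AddCircle (2 * π)))) v) ^ 2)) := by
    have : Continuous (fun z : V × ℝ => inner ℝ (w (S.boundary (z.2 : AddCircle (2 * π)))) z.1) :=
      (hbc.comp continuous_snd).inner continuous_fst
    exact ((continuous_psi n).comp this).pow 2
  have hb1 : ∀ s, psi n s ^ 2 ≤ 1 := by
    intro s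
    have := abs_psi_le n s
    rw [← sq_abs]
    exact pow_le_one₀ (abs_nonneg _) this
  have hfm : IsFiniteMeasure (volume.restrict (Set.Ioc (0 : ℝ) (2 * π))) :=
    ⟨by rw [Measure.restrict_apply_univ]; exact measure_Ioc_lt_top⟩
  have hinteg : Integrable (Function.uncurry (fun (v : V) (t : ℝ) =>
      psi n (inner ℝ (w (S.boundary (t : AddCircle (2 * π)))) v) ^ 2))
      ((stdGaussian V).prod (volume.restrict (Set.Ioc (0 : ℝ) (2 * π)))) := by
    apply Integrable.of_bound hcont.aestronglyMeasurable 1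
    apply Eventually.of_forall
    rintro ⟨v, t⟩
    simp only [Function.uncurry]
    rw [Real.norm_eq_abs, abs_of_nonneg (sq_nonneg _)]
    exact hb1 _
  have hpos : (0 : ℝ) ≤ 2 * π := by positivity
  have hL : ∫⁻ v, ENNReal.ofReal (∫ t in (0 : ℝ)..(2 * π),
        psi n (inner ℝ (w (S.boundary (t : AddCircle (2 * π)))) v) ^ 2) ∂(stdGaussian V)
      = ENNReal.ofReal (2 * π * cn n) := by
    have e1 : ∀ v, (∫ t in (0 : ℝ)..(2 * π),
        psi n (inner ℝ (w (S.boundary (t : AddCircle (2 * π)))) v) ^ 2)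
        = ∫ t in Set.Ioc (0 : ℝ) (2 * π),
        psi n (inner ℝ (w (S.boundary (t : AddCircle (2 * π)))) v) ^ 2 := fun v =>
      intervalIntegral.integral_of_le hpos
    simp_rw [e1]
    have e3 : ENNReal.ofReal (∫ v, (∫ t in Set.Ioc (0 : ℝ) (2 * π),
        psi n (inner ℝ (w (S.boundary (t : AddCircle (2 * π)))) v) ^ 2) ∂(stdGaussian V))
        = ∫⁻ v, ENNReal.ofReal (∫ t in Set.Ioc (0 : ℝ) (2 * π),
        psi n (inner ℝ (w (S.boundary (t : AddCircle (2 * π)))) v) ^ 2) ∂(stdGaussian V) :=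
      ofReal_integral_eq_lintegral_ofReal hinteg.integral_prod_left
        (Eventually.of_forall fun v => integral_nonneg fun t => sq_nonneg _)
    rw [← e3]
    congr 1
    rw [integral_integral_swap hinteg]
    have e2 : ∀ t : ℝ, ∫ v, psi n (inner ℝ (w (S.boundary (t : AddCircle (2 * π)))) v) ^ 2
        ∂(stdGaussian V) = cn n := fun t => integral_psi_sq n (h1 _)
    simp_rw [e2]
    rw [setIntegral_const, smul_eq_mul]
    simp [Real.volume_real_Ioc_of_le hpos]
  rw [← hL]
  calc ∫⁻ v, ENNReal.ofReal (∫ t in (0 : ℝ)..(2 * π),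
        psi n (inner ℝ (w (S.boundary (t : AddCircle (2 * π)))) v) ^ 2) ∂(stdGaussian V)
      ≤ ∫⁻ v, (∑ k, ∫⁻ x in Sqo, ff S w n k v x) ∂(stdGaussian V) :=
        lintegral_mono fun v => star S hS hK0 hK hodd n v
    _ = ∑ k, ∫⁻ v, (∫⁻ x in Sqo, ff S w n k v x) ∂(stdGaussian V) := by
        rw [lintegral_finsetSum']
        intro k _
        exact (aem_ff S hK0 hK n k).lintegral_prod_right'
    _ = ∑ k, ∫⁻ x in Sqo, (∫⁻ v, ff S w n k v x ∂(stdGaussian V)) := by
        apply Finset.sum_congr rfl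
        intro k _
        exact lintegral_lintegral_swap (aem_ff S hK0 hK n k)
    _ ≤ ∑ k, ∫⁻ x in Sqo, ENNReal.ofReal (√(eq2 S w k x / 2)) := by
        apply Finset.sum_le_sum
        intro k _
        apply lintegral_mono_ae
        filter_upwards [ae_diff_chart S hK0 hK k, self_mem_ae_restrict measurableSet_Sqo]
          with x hx hxS
        have hxS' := Sqo_sub hxS
        exact pointwise_gauss hn (h1 _) (inner_deriv_zero S h1 k hx (1, 0))
          (inner_deriv_zero S h1 k hx (0, 1)) ((S.metric k).pos_E x hxS')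
          ((S.metric k).pos_det x hxS')

end avg

end Pool.Agent.TH172.FA
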