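import Mathlib
import Pool.Agent.TH172.FA.Asm

/-! # Area times energy -/

open Finset Real MeasureTheory Filter Topology Set ProbabilityTheory
open scoped ENNReal

namespace Pool.Agent.TH172.FA

set_option linter.unusedSectionVars false

open Pool.Agent.H115R3.Filling Pool.Agent.W664.Fill

variable {M : Type} [MetricSpace M] (S : OrientedSurface M)

variable {V : Type*} [NormedAddCommGroup V] [InnerProductSpace ℝ V] [FiniteDimensional ℝ V]

/-- The integral of the square root of the energy density. -/
noncomputable def sqrtEnergy (w : M → V) : ℝ :=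
  ∑ k, ∫ x in Sq, √(eq2 S w k x / 2)

/-- The energy of a map. -/
noncomputable def energy (w : M → V) : ℝ :=
  ∑ k, ∫ x in Sq, eq2 S w k x / (2 * √(det S k x))

section

variable [MeasurableSpace V] [BorelSpace V]

variable {w : M → V} {K : ℝ}

lemma integrable_sqrt (hK0 : 0 ≤ K) (hK : ∀ x y, ‖w x - w y‖ ≤ K * dist x y) (k : Fin S.faces) :
    Integrable (fun x => √(eq2 S w k x / 2)) (volume.restrict Sqo) := by
  obtain ⟨B, hB0, hB⟩ := eq2_bdd S hK0 hK k
  apply Integrable.of_bound
    (((Real.continuous_sqrt.measurable.comp_aemeasurable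
      ((aem_eq2 S w k).div_const 2))).aestronglyMeasurable) (√(B / 2))
  filter_upwards [self_mem_ae_restrict measurableSet_Sqo] with x hx
  simp only [Function.comp]
  rw [Real.norm_eq_abs, abs_of_nonneg (Real.sqrt_nonneg _)]
  apply Real.sqrt_le_sqrt
  have := hB x hx
  linarith

lemma integrable_energy (hK0 : 0 ≤ K) (hK : ∀ x y, ‖w x - w y‖ ≤ K * dist x y)
    (k : Fin S.faces) :
    Integrable (fun x => eq2 S w k x / (2 * √(det S k x))) (volume.restrict Sqo) := by
  obtain ⟨B, hB0, hB⟩ := eq2_bdd S hK0 hK k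
  have hc : ContinuousOn (fun x => (2 * √(det S k x))⁻¹) Sq := by
    have h1 : ContinuousOn (fun x => 2 * √(det S k x)) Sq := by
      apply ContinuousOn.mul continuousOn_const
      apply ContinuousOn.sqrt
      exact ((S.metric k).continuousOn_E.mul (S.metric k).continuousOn_G).sub
        ((S.metric k).continuousOn_F.pow 2)
    apply h1.inv₀
    intro x hx
    have := (S.metric k).pos_det x hx
    have h2 : 0 < √(det S k x) := Real.sqrt_pos.mpr this
    positivity
  obtain ⟨D, hD⟩ := isCompact_Sq.exists_bound_of_continuousOn hc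
  have hm : AEMeasurable (fun x => (2 * √(det S k x))⁻¹) (volume.restrict Sqo) :=
    (hc.mono Sqo_sub).aemeasurable measurableSet_Sqo
  have hm2 : AEMeasurable (fun x => eq2 S w k x / (2 * √(det S k x))) (volume.restrict Sqo) := by
    simp_rw [div_eq_mul_inv]
    exact (aem_eq2 S w k).mul hm
  apply Integrable.of_bound hm2.aestronglyMeasurable (B * |D|)
  filter_upwards [self_mem_ae_restrict measurableSet_Sqo] with x hx
  rw [div_eq_mul_inv, norm_mul, Real.norm_eq_abs, abs_of_nonneg (eq2_nonneg S w k (Sqo_sub hx))]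
  exact mul_le_mul (hB x hx) ((hD x (Sqo_sub hx)).trans (le_abs_self _)) (norm_nonneg _) hB0

theorem two_pi_le (hS : S.NoShortcut) (hK0 : 0 ≤ K)
    (hK : ∀ x y, ‖w x - w y‖ ≤ K * dist x y) (h1 : ∀ x, ‖w x‖ = 1)
    (hodd : ∀ t : AddCircle (2 * π), w (S.boundary (t + ((π : ℝ) : AddCircle (2 * π))))
      = - w (S.boundary t)) : 2 * π ≤ sqrtEnergy S w := by
  have hnn : ∀ k, 0 ≤ ∫ x in Sqo, √(eq2 S w k x / 2) := fun k =>
    integral_nonneg fun x => Real.sqrt_nonneg _
  have hsum : ∑ k, ∫⁻ x in Sqo, ENNReal.ofReal (√(eq2 S w k x / 2))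
      = ENNReal.ofReal (sqrtEnergy S w) := by
    unfold sqrtEnergy
    rw [restrict_Sq, ENNReal.ofReal_sum_of_nonneg (fun k _ => hnn k)]
    apply Finset.sum_congr rfl
    intro k _
    rw [ofReal_integral_eq_lintegral_ofReal (integrable_sqrt S hK0 hK k)
      (Eventually.of_forall fun x => Real.sqrt_nonneg _)]
  have h2 : ∀ n : ℕ, 0 < n → 2 * π * cn n ≤ sqrtEnergy S w := by
    intro n hn
    have := avg_le S hS hK0 hK h1 hodd hn
    rw [hsum] at this
    have hpos : 0 ≤ sqrtEnergy S w := by
      unfold sqrtEnergy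
      apply Finset.sum_nonneg
      intro k _
      exact integral_nonneg fun x => Real.sqrt_nonneg _
    exact (ENNReal.ofReal_le_ofReal_iff hpos).mp this
  have h3 : Tendsto (fun n => 2 * π * cn n) atTop (𝓝 (2 * π * 1)) := tendsto_cn.const_mul _
  rw [mul_one] at h3
  refine le_of_tendsto h3 ?_
  filter_upwards [eventually_gt_atTop 0] with n hn using h2 n hn

lemma two_mul_sqrtEnergy_le (hK0 : 0 ≤ K) (hK : ∀ x y, ‖w x - w y‖ ≤ K * dist x y) (s : ℝ) :
    2 * sqrtEnergy S w * s ≤ s ^ 2 * S.area + energy S w := by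
  unfold sqrtEnergy energy OrientedSurface.area RiemMetric.area
  rw [restrict_Sq]
  rw [Finset.mul_sum, Finset.sum_mul, Finset.mul_sum, ← Finset.sum_add_distrib]
  apply Finset.sum_le_sum
  intro k _
  have hd : Integrable (fun p => √((S.metric k).E p * (S.metric k).G p - (S.metric k).F p ^ 2))
      (volume.restrict Sqo) := by
    have := (S.metric k).integrableOn_density
    unfold IntegrableOn at this
    rwa [restrict_Sq] at this
  have i1 := integrable_sqrt S hK0 hK k
  have i2 := integrable_energy S hK0 hK k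
  have e1 : 2 * (∫ x in Sqo, √(eq2 S w k x / 2)) * s
      = ∫ x in Sqo, 2 * s * √(eq2 S w k x / 2) := by
    rw [integral_const_mul]; ring
  rw [e1, ← integral_const_mul, ← integral_add (hd.const_mul _) i2]
  apply integral_mono_ae (i1.const_mul _) ((hd.const_mul _).add i2)
  filter_upwards [self_mem_ae_restrict measurableSet_Sqo] with x hx
  have hxS := Sqo_sub hx
  have hdet : 0 < det S k x := (S.metric k).pos_det x hxS
  have hq := eq2_nonneg S w k hxS
  set D := √(det S k x) with hD
  have hD0 : 0 < D := Real.sqrt_pos.mpr hdet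
  have e2 : √((S.metric k).E x * (S.metric k).G x - (S.metric k).F x ^ 2) = D := rfl
  simp only [Pi.add_apply]
  rw [e2]
  set r := √(eq2 S w k x / 2) with hr
  have hr2 : r ^ 2 = eq2 S w k x / 2 := Real.sq_sqrt (by positivity)
  have e3 : eq2 S w k x / (2 * D) = r ^ 2 / D := by
    rw [hr2]; field_simp
  rw [e3]
  have e4 : s ^ 2 * D + r ^ 2 / D - 2 * s * r = (s * D - r) ^ 2 / D := by
    field_simp
    ring
  have e5 : 0 ≤ (s * D - r) ^ 2 / D := by positivity
  linarith

lemma energy_nonneg (w : M → V) : 0 ≤ energy S w := by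
  unfold energy
  rw [restrict_Sq]
  apply Finset.sum_nonneg
  intro k _
  apply integral_nonneg_of_ae
  filter_upwards [self_mem_ae_restrict measurableSet_Sqo] with x hx
  have := eq2_nonneg S w k (Sqo_sub hx)
  simp only [Pi.zero_apply]
  positivity

lemma area_nonneg : 0 ≤ S.area := by
  unfold OrientedSurface.area RiemMetric.area
  apply Finset.sum_nonneg
  intro k _
  exact integral_nonneg fun x => Real.sqrt_nonneg _

/-- **Area times energy.** -/
theorem area_mul_energy (hS : S.NoShortcut) (hK0 : 0 ≤ K)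
    (hK : ∀ x y, ‖w x - w y‖ ≤ K * dist x y) (h1 : ∀ x, ‖w x‖ = 1)
    (hodd : ∀ t : AddCircle (2 * π), w (S.boundary (t + ((π : ℝ) : AddCircle (2 * π))))
      = - w (S.boundary t)) : (2 * π) ^ 2 ≤ S.area * energy S w := by
  have h2 := two_pi_le S hS hK0 hK h1 hodd
  have ha := area_nonneg S
  have he := energy_nonneg S w
  have h3 : ∀ s : ℝ, 0 ≤ S.area * (s * s) + (-(4 * π)) * s + energy S w := by
    intro s
    rcases le_or_gt s 0 with hs | hs
    · have e1 : 0 ≤ S.area * (s * s) := mul_nonneg ha (mul_self_nonneg s)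
      have e2 : 0 ≤ -(4 * π) * s := by nlinarith [Real.pi_pos]
      linarith
    · have e1 := two_mul_sqrtEnergy_le S hK0 hK s
      have e2 : 2 * (2 * π) * s ≤ 2 * sqrtEnergy S w * s := by
        apply mul_le_mul_of_nonneg_right _ hs.le
        linarith
      nlinarith
  have h4 := discrim_le_zero h3
  unfold discrim at h4
  nlinarith

end

end Pool.Agent.TH172.FA
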